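import Pool.Agent.Lib.MP_83608f_co.AV.GRW

/-!
# MP_83608f_co, part AV, SHORT route (helper32's text /team-store/MP_83608f_h32_SHORT.md): the Spec (helper85)

Everything happens in an abstract cover `C : Cv X` (for a digraph `V` with a potential: `X = V × ℤ`, `lab (x, s) = a x + q s`,
`T (x, s) = (x, s + 1)`).  `G_l = {x | lab x ≤ l}`, `win l l' = {x | l < lab x ≤ l'}`, `XX l = |win l (l + p)|` (so `pp l = u - XX l`,
`qq l = v - XX (l - p)`), `d l` = smallest number of out-neighbours in `G_l` of a vertex of `G_l`, `Δ = p m - q`.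
Growth and the vertex of small inner degree: `GRW_.growth`, `GRW_.exists_low` (AV/GRW.lean) on any type.

Module XXX = file AV/SH/XXX.lean, `namespace Pool.Agent.Lib.MP_83608f_co.AV.SH`, own lemmas in `namespace XXX_`, final theorem
`specXXX : SpecXXX` (other Specs may be hypotheses of it).  Do not change this file.
-/

set_option autoImplicit false

open Classical Finset

noncomputable section

namespace Pool.Agent.Lib.MP_83608f_co.AV.SH

open Pool.Agent.Lib.MP_83608f_co.CN (NoCl)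
open Pool.Agent.Lib.MP_83608f_co.EM (Wk)

structure Cv (X : Type) where
  A : X → X → Prop
  lab : X → ℤ
  T : X ≃ X
  /-- out-neighbours -/
  N : X → Finset X
  /-- in-neighbours -/
  M : X → Finset X
  win : ℤ → ℤ → Finset X
  m : ℕ
  p : ℕ
  q : ℕ
  u : ℕ
  v : ℕ
  n : ℕ
  H : ℕ
  memN : ∀ x y, y ∈ N x ↔ A x y
  memM : ∀ x y, y ∈ M x ↔ A y x
  memwin : ∀ l l' x, x ∈ win l l' ↔ l < lab x ∧ lab x ≤ l'
  hH : 10 ≤ H
  big : 28000000 * H ≤ m
  hp : 1 ≤ p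
  hq : 1 ≤ q
  hv : 1 ≤ v
  hvu : v ≤ u
  /-- `2 n ≤ m K` -/
  hn : 2 * n ≤ m * (u + v)
  /-- out-balls of radius `m` in `V` -/
  hn' : m * u ≤ n + 45 * u
  cl : NoCl A m
  clT : ∀ j x, 1 ≤ j → j ≤ m → ¬ Wk (⟨A⟩ : Digraph X) j x (T x)
  out : ∀ x, u ≤ (N x).card
  inn : ∀ x, v ≤ (M x).card
  /-- (DEG) -/
  deg : ∀ x, (M x).card ≤ 46 * u
  up : ∀ x y, A x y → lab y ≤ lab x + p
  tight : ∀ x, ∃ y, A y x ∧ lab x = lab y + p
  occ : ∀ l, ∃ x, lab x = l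
  labT : ∀ x, lab (T x) = lab x + q
  AT : ∀ x y, A (T x) (T y) ↔ A x y
  /-- (LM) -/
  drop : ∀ j x y, Wk (⟨A⟩ : Digraph X) j x y → 8 * j ≤ m → lab x ≤ lab y + H * p
  speed : p * m ≤ q + p * H
  full : ∀ l, (win l (l + q)).card = n

namespace Cv

variable {X : Type} (C : Cv X)

def XX (l : ℤ) : ℕ := (C.win l (l + C.p)).card

/-- the number of out-neighbours of `x` in `G_l` -/
def dg (l : ℤ) (x : X) : ℕ := ((C.N x).filter fun y => C.lab y ≤ l).card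

def d (l : ℤ) : ℕ := sInf {k | ∃ x, C.lab x ≤ l ∧ C.dg l x = k}

/-- `y` is reached from `x` by a walk of length `j` inside `Q` -/
def Rw (Q : X → Prop) : ℕ → X → X → Prop
  | 0, x, y => x = y
  | j + 1, x, y => ∃ z, Rw Q j x z ∧ C.A z y ∧ Q y

/-- `W`: all windows of length `(H + 4) p` are small, `d` is small, `qq` is small -/
def Small : Prop :=
  (∀ l, 1000000 * (C.win (l - (C.H + 4) * C.p) l).card ≤ C.m * C.u) ∧
  (∀ l, 100000 * C.d l ≤ C.u) ∧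
  (∀ l, 100000 * C.v ≤ 100000 * C.XX l + C.u)

end Cv

/-- BAS (helper85): basic facts. -/
def SpecBAS : Prop := ∀ (X : Type) (C : Cv X),
  -- 1, 2: `d` is a minimum
  (∀ l x, C.lab x ≤ l → C.d l ≤ C.dg l x) ∧ (∀ l, ∃ x, C.lab x ≤ l ∧ C.dg l x = C.d l) ∧
  -- 3: `pp l ≤ d l`
  (∀ l, C.u ≤ C.XX l + C.d l) ∧
  -- 4, 5, 6: period
  (∀ l, C.d (l + C.q) = C.d l) ∧ (∀ l, C.XX (l + C.q) = C.XX l) ∧
  (∀ l l', (C.win (l + C.q) (l' + C.q)).card = (C.win l l').card) ∧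
  -- 7: additivity
  (∀ l l' l'', l ≤ l' → l' ≤ l'' → (C.win l l'').card = (C.win l l').card + (C.win l' l'').card) ∧
  -- 8: sums over a period
  (∀ (c : ℤ) (r : ℕ), ∑ l ∈ Ico (0 : ℤ) C.q, (C.win (l + c) (l + c + r)).card = r * C.n) ∧
  (∀ (f : ℤ → ℤ) (c : ℤ), (∀ l, f (l + C.q) = f l) → ∑ l ∈ Ico (0 : ℤ) C.q, f (l + c) = ∑ l ∈ Ico (0 : ℤ) C.q, f l) ∧
  -- 9: tight ancestors
  (∀ (k : ℕ) (x : X), ∃ z, Wk (⟨C.A⟩ : Digraph X) k z x ∧ C.lab x = C.lab z + C.p * k) ∧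
  -- 10: walks
  (∀ (j : ℕ) (x y : X), Wk (⟨C.A⟩ : Digraph X) j x y → C.lab y ≤ C.lab x + C.p * j) ∧
  (∀ (Q : X → Prop) (j : ℕ) (x y : X), C.Rw Q j x y → Wk (⟨C.A⟩ : Digraph X) j x y) ∧
  -- 11: numbers
  C.n ≤ C.m * C.u ∧ C.m * C.u ≤ C.m * C.v + 90 * C.u ∧ C.u ≤ 2 * C.v ∧ C.m * C.u ≤ 2 * C.n ∧
  -- 12: an arc from `G_l` to the complement ends in `win l (l + p)`, starts in `win (l - p) l`
  (∀ l x y, C.A x y → C.lab x ≤ l → l < C.lab y → y ∈ C.win l (l + C.p) ∧ x ∈ C.win (l - C.p) l) ∧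
  -- 13: growth in `G_l`: `F` contains everything reached from `x` inside `G_l` in at most `j` steps
  (∀ (l : ℤ) (x : X) (j : ℕ) (F : Finset X), C.lab x ≤ l → j ≤ C.m → (∀ i ≤ j, ∀ y, C.Rw (fun y => C.lab y ≤ l) i x y → y ∈ F) →
    j * C.d l ≤ F.card + 45 * C.d l)

/-- WIN (helper92), section 0 (W).  `h = m / 8 - 2`, `W_l = |win (l - (H+4) p) l|`. A vertex with label in `(l - p, l]` reaches inside
`G_l` in at most `h` steps only vertices of this window (`drop`), so (13) `(h - 45) d(l) ≤ W_l`. The lap `win (l - (H+4)p) (l - (H+4)p + q)`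
consists of `W_l` and at least `M ≥ m - 2 H - 5` disjoint windows `win (l + i p) (l + i p + p)` of mass `≥ u - d ≥ u - W_(l+ip)/(h-45)`, and
`Σ_i W_(l + i p) ≤ 2 (H+4) n`. So `W_l ≤ n - M u + 2 (H+4) n / (h - 45) ≤ 28 H u` (`n ≤ m u`). Then `d l ≤ 9 u / 10^6`. Dual: a vertex above
`l` has at least `v - XX (l - p)` in-neighbours above `l`; in-ball of radius `h` above `l` of a vertex with label in `(l, l+p]`. -/
def SpecWIN : Prop := ∀ (X : Type) (C : Cv X), C.Small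

/-- LML (helper32 / helper39), Lemma L: a cut with an arc backwards over it has no surplus. -/
def SpecLML : Prop := ∀ (X : Type) (C : Cv X), C.Small → ∀ (l : ℤ) (x z : X), C.A x z → l < C.lab x → C.lab z ≤ l →
  C.u + C.v ≤ C.XX l + C.XX (l - C.p)

/-- LMK (helper63 / helper39), Lemma K: `F` contains everything reached from `z` inside `G_l` in at most `h = m / 8 - 2` steps. -/
def SpecLMK : Prop := ∀ (X : Type) (C : Cv X), C.Small → ∀ (l : ℤ) (z : X) (F : Finset X), C.lab z ≤ l → l - 3 * C.p < C.lab z →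
  (∀ i ≤ C.m / 8 - 2, ∀ y, C.Rw (fun y => C.lab y ≤ l) i z y → y ∈ F) →
  C.m * ((C.M z).filter fun y => l < C.lab y).card ≤ 10 * F.card + 400 * (C.m * (C.XX l - C.u))

/-- SEC4 (helper83), section 4: `2 Δ ≥ p` is impossible. -/
def SpecSEC4 : Prop := ∀ (X : Type) (C : Cv X), C.Small → C.q ≤ C.p * C.m → 2 * C.q + C.p ≤ 2 * (C.p * C.m) → False

/-- The two types of section 5, `Δ = D`, `l₂ = l + 2 p - D`, `rho = |win l₂ (l + 2 p)|`. -/
def Type1 {X : Type} (C : Cv X) (D : ℕ) (l : ℤ) (miss x : ℕ) : Prop :=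
  1 ≤ miss ∧
  (miss : ℤ) + (C.win (l + 2 * C.p - D) (l + 2 * C.p)).card ≤ C.d l + C.XX l + C.XX (l + C.p) - C.u - C.v + x ∧
  20000 * C.d (l + 2 * C.p - D) ≤ miss + (C.win (l + 2 * C.p - D) (l + 2 * C.p)).card ∧
  10000 * x ≤ miss + (C.win (l + 2 * C.p - D) (l + 2 * C.p)).card + 4000000 * (C.XX (l + 2 * C.p - D) - C.u)

def Type2 {X : Type} (C : Cv X) (D : ℕ) (l : ℤ) : Prop :=
  1 ≤ D ∧ C.u ≤ 2 * (C.win l (l + D)).card ∧
  ((C.win (l + 2 * C.p - D) (l + 2 * C.p)).card : ℤ) ≤ C.d l + C.d (l + C.p - D) + C.XX l + C.XX (l + C.p) - 2 * C.u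

/-- LOC5 (helper91), section 5, local part: (R4), (K1), (K2), type 2.  `miss = |win (l + p) l₂ \ M z_l|`, `x = |M z_l above l₂|`. -/
def SpecLOC5 : Prop := ∀ (X : Type) (C : Cv X), C.Small → ∀ D : ℕ, C.q + D = C.p * C.m → 2 * D < C.p → ∀ l : ℤ,
  (∃ miss x, Type1 C D l miss x) ∨ Type2 C D l

/-- SUM5 (helper16), section 5, the sum over a period. -/
def SpecSUM5 : Prop := ∀ (X : Type) (C : Cv X), C.Small → ∀ D : ℕ, C.q + D = C.p * C.m → 2 * D < C.p →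
  ¬ ∀ l : ℤ, (∃ miss x, Type1 C D l miss x) ∨ Type2 C D l

/-- SHT (helper85): from WIN, SEC4, LOC5, SUM5: every abstract cover has `q > p m`. -/
def SpecSHT : Prop := ∀ (X : Type) (C : Cv X), C.Small ∧ ¬ C.q ≤ C.p * C.m

theorem specSHT (hW : SpecWIN) (h4 : SpecSEC4) (h5 : SpecLOC5) (hS : SpecSUM5) : SpecSHT := by
  intro X C
  refine ⟨hW X C, fun hq => ?_⟩
  by_cases h : 2 * C.q + C.p ≤ 2 * (C.p * C.m)
  · exact h4 X C (hW X C) hq h
  · obtain ⟨D, hD⟩ := Nat.exists_eq_add_of_le hq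
    exact hS X C (hW X C) D hD.symm (by omega) (h5 X C (hW X C) D hD.symm (by omega))

/-
BRI (helper63): for a `Pot` with `Vio`, `Loc`, `28000000 η ≤ m`, `dm ≤ dp` there is a `C : Cv (V × ℤ)` with `C.p = P.p`, `C.q = P.q`,
`C.XX l = PP P.a P.p P.q l`, `C.XX (l - p) = QQ ..`, and `Clean` at `l` iff no arc of `C` from above `l` to `G_l`.
FIN (helper14 / helper50): `q ≤ p m` by `rho_lt` (Sum.lean) with `J` = the clean labels and SpecLML; then SpecSHT; so `S.SpecSH`.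
-/

end Pool.Agent.Lib.MP_83608f_co.AV.SH
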