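import Pool.Agent.Lib.MP_83608f_co.AV.Macro
import Pool.Agent.Lib.MP_83608f_co.AV.Spec
import Pool.Agent.Lib.MP_83608f_co.AV.SH.Spec

section
/-!
# MP_83608f_co, part AV, SHORT route, BRI (helper63): the abstract cover of a minimal violator with a potential

`BRI_.cv hV P hL hη hle : Cv (V × ℤ)`; `XX_eq`, `XX_eq'`: `XX l = PP`, `XX (l - p) = QQ`; `clean_iff`.
-/
set_option autoImplicit false

open Classical

noncomputable section

namespace Pool.Agent.Lib.MP_83608f_co.AV.SH

open Pool.Agent.Lib.MP_83608f_co.CN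

namespace BRI_

open Cov_

variable {V : Type} {A : V → V → Prop} {φ : V → V → ℤ}

/-- the deck transformation as an equivalence -/
def Te (V : Type) : V × ℤ ≃ V × ℤ := Equiv.prodCongr (Equiv.refl V) (Equiv.addRight (1 : ℤ))

lemma Te_apply (x : V × ℤ) : Te V x = T x := rfl

lemma R_T (x y : V × ℤ) : R A φ (T x) (T y) ↔ R A φ x y := by
  simp only [R, T]
  constructor
  · rintro ⟨h1, h2⟩
    exact ⟨h1, by linarith⟩
  · rintro ⟨h1, h2⟩
    exact ⟨h1, by linarith⟩

variable [Fintype V] {m dp dm : ℕ}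

/-- balls of radius `m` -/
lemma hn' (hV : Vio A m dp dm) : m * dp ≤ Fintype.card V + 45 * dp := by
  obtain ⟨x⟩ : Nonempty V := Fintype.card_pos_iff.1 hV.hne
  have h1 := ball_out hV.hcl hV.hout x m (le_refl _)
  have h2 := Finset.card_le_univ (LAY_.cb A x m)
  omega

lemma one_le (hV : Vio A m dp dm) : 1 ≤ dm := by
  by_contra hcon
  have h0 : dm = 0 := by omega
  have h1 := hn' hV
  have h2 := hV.hn
  have h3 := hV.hK
  have h4 := hV.hm
  rw [h0] at h2 h3
  rw [add_zero] at h2 h3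
  have h5 : 91 * dp ≤ m * dp := Nat.mul_le_mul_right _ h4
  omega

lemma deg (hV : Vio A m dp dm) (hle : dm ≤ dp) (x : V × ℤ) : (inn A φ x).card ≤ 46 * dp := by
  rw [card_inn]
  have h1 := Exc_.in_ball (by have := hV.hm; omega) hV.hcl hV.hout x.1
  have h2 := hV.hn
  have h3 : m * (dp + dm) ≤ m * (dp + dp) := Nat.mul_le_mul_left _ (by omega)
  have h4 : m * (dp + dp) = 2 * (m * dp) := by ring
  omega

/-- **the abstract cover** -/
def cv {η : ℕ} (hV : Vio A m dp dm) (P : Pot A φ) (hL : S.Loc P m η) (hη : 28000000 * η ≤ m) (hle : dm ≤ dp) :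
    Cv (V × ℤ) where
  A := R A φ
  lab := lab P
  T := Te V
  N := out A φ
  M := inn A φ
  win := W P
  m := m
  p := P.p
  q := P.q
  u := dp
  v := dm
  n := Fintype.card V
  H := η
  memN := fun _ _ => mem_out
  memM := fun _ _ => mem_inn
  memwin := fun _ _ _ => mem_W P
  hH := hL.ten
  big := hη
  hp := P.hp
  hq := P.hq
  hv := one_le hV
  hvu := hle
  hn := hV.hn
  hn' := hn' hV
  cl := nocl hV.hcl
  clT := fun _ _ h1 h2 => girth_T hV.hcl h1 h2
  out := fun x => by
    rw [card_out]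
    exact hV.hout _
  inn := fun x => by
    rw [card_inn]
    exact hV.hin _
  deg := deg hV hle
  up := fun _ _ => lab_le P
  tight := fun x => by
    obtain ⟨y, h1, h2⟩ := tight P x
    exact ⟨y, h1, by linarith⟩
  occ := fun l => by
    have : Nonempty V := Fintype.card_pos_iff.1 hV.hne
    exact exists_lab P l
  labT := lab_T P
  AT := fun x y => R_T x y
  drop := fun j x y h1 h2 => by
    have h3 := drop hL.toLoc h2 h1
    linarith [mul_comm (P.p : ℤ) η]
  speed := hL.speed
  full := fun l => by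
    have h1 := card_W P (show l ≤ l + P.q by have := hq P; linarith)
    rw [F_q] at h1
    have : ((W P l (l + P.q)).card : ℤ) = Fintype.card V := by linarith
    exact_mod_cast this

variable {η : ℕ} (hV : Vio A m dp dm) (P : Pot A φ) (hL : S.Loc P m η) (hη : 28000000 * η ≤ m) (hle : dm ≤ dp)

omit [Fintype V] in
lemma p_le_q {P : Pot A φ} (hL : S.Loc P m η) (hη : 28000000 * η ≤ m) : P.p ≤ P.q := by
  have h1 := hL.speed
  have h2 := hL.ten
  have h3 : P.p * (1 + η) ≤ P.p * m := Nat.mul_le_mul_left _ (by omega)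
  rw [mul_add, mul_one] at h3
  omega

lemma card_W_win {l l' : ℤ} (h : l' ≤ l + P.q) : (W P l l').card = (win P.a P.q l l').card := by
  have hq := hq P
  have hinj : Set.InjOn (Prod.fst : V × ℤ → V) (W P l l' : Set (V × ℤ)) := by
    intro x hx y hy hxy
    have h1 := (mem_W P).1 hx
    have h2 := (mem_W P).1 hy
    simp only [lab] at h1 h2
    rw [hxy] at h1
    have h3 := lift_unique h h1.1 h1.2 h2.1 h2.2
    exact Prod.ext hxy (mul_left_cancel₀ hq.ne' h3)
  rw [← Finset.card_image_of_injOn hinj]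
  congr 1
  ext v
  rw [Finset.mem_image, mem_win]
  constructor
  · rintro ⟨x, hx, rfl⟩
    exact ⟨x.2, ((mem_W P).1 hx).1, ((mem_W P).1 hx).2⟩
  · rintro ⟨s, h1, h2⟩
    exact ⟨(v, s), (mem_W P).2 ⟨h1, h2⟩, rfl⟩

lemma XX_eq (l : ℤ) : ((cv hV P hL hη hle).XX l : ℤ) = PP P.a P.p P.q l := by
  have h : (P.p : ℤ) ≤ P.q := by exact_mod_cast p_le_q hL hη
  unfold PP
  rw [← card_W_win P (by linarith)]
  rfl

lemma XX_eq' (l : ℤ) : ((cv hV P hL hη hle).XX (l - P.p) : ℤ) = QQ P.a P.p P.q l := by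
  rw [XX_eq, Sum_.QQ_eq]

lemma clean_of (l : ℤ) (h : ∀ x z : V × ℤ, (cv hV P hL hη hle).A x z → l < (cv hV P hL hη hle).lab x →
    l < (cv hV P hL hη hle).lab z) : Clean A P.a φ P.q l := by
  intro x y hA i hi
  exact h (x, i) (y, i + φ x y) ⟨hA, rfl⟩ hi

lemma unclean (l : ℤ) (h : ¬ Clean A P.a φ P.q l) : ∃ x z : V × ℤ, (cv hV P hL hη hle).A x z ∧
    l < (cv hV P hL hη hle).lab x ∧ (cv hV P hL hη hle).lab z ≤ l := by
  by_contra hcon
  push Not at hcon
  exact h (clean_of hV P hL hη hle l fun x z h1 h2 => hcon x z h1 h2)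

end BRI_

end Pool.Agent.Lib.MP_83608f_co.AV.SH
end
end

section
/-!
# MP_83608f_co, part AV, SHORT route, FIN (helper63): from the modules of the SHORT route to `S.SpecTOP`
-/
set_option autoImplicit false

open Classical

noncomputable section

namespace Pool.Agent.Lib.MP_83608f_co.AV.SH

open Pool.Agent.Lib.MP_83608f_co.CN

namespace FIN_

open BRI_

variable {V : Type} [Fintype V] {A : V → V → Prop} {φ : V → V → ℤ} {m dp dm η : ℕ}

/-- AVSUM: the labels with an arc backwards over them have no surplus, so `q ≤ p m`; then `SpecSHT` -/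
theorem no_vio (hSHT : SpecSHT) (hLML : SpecLML) (hV : Vio A m dp dm) (P : Pot A φ) (hL : S.Loc P m η)
    (hη : 28000000 * η ≤ m) (hle : dm ≤ dp) : False := by
  obtain ⟨hS, hq⟩ := hSHT _ (cv hV P hL hη hle)
  have hq' : P.p * m + 1 ≤ P.q := by
    by_contra h
    exact hq (by
      show P.q ≤ P.p * m
      omega)
  have h1 := rho_lt (A := A) (φ := φ) (a := P.a) (p := P.p) (q := P.q) (m := m) (dp := dp) (dm := dm) P.a_le
    (sub_vio hV) (occ_pot P) P.hp hq' (by have := hV.hm; omega) hV.hK hV.hn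
    ((Finset.Ico (0 : ℤ) P.q).filter fun l => Clean A P.a φ P.q l) (Finset.filter_subset _ _)
    (fun j hj => (Finset.mem_filter.1 hj).2)
  refine absurd h1 (not_lt.2 (Finset.sum_nonpos fun l hl => ?_))
  rw [Finset.mem_sdiff, Finset.mem_filter] at hl
  have h2 : ¬ Clean A P.a φ P.q l := fun h => hl.2 ⟨hl.1, h⟩
  obtain ⟨x, z, h3, h4, h5⟩ := unclean hV P hL hη hle l h2
  have h6 := hLML _ (cv hV P hL hη hle) hS l x z h3 h4 h5
  have h7 := XX_eq hV P hL hη hle l
  have h8 := XX_eq' hV P hL hη hle l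
  have h9 : ((dp : ℤ) + dm) ≤ ((cv hV P hL hη hle).XX l : ℤ) + ((cv hV P hL hη hle).XX (l - P.p) : ℤ) := by
    exact_mod_cast h6
  rw [h7, h8] at h9
  linarith

/-- the reversed violator -/
theorem vio_rev (hV : Vio A m dp dm) : Vio (fun x y => A y x) m dm dp where
  hm := hV.hm
  hK := by have := hV.hK; omega
  hcl := noCl_rev hV.hcl
  hout := hV.hin
  hin := hV.hout
  hne := hV.hne
  hn := by
    rw [Nat.add_comm dm dp]
    exact hV.hn
  ih := hV.ih

end FIN_

open FIN_

/-- **the average form for all large `m` from the modules of the SHORT route** -/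
theorem specTOP (hMAC : S.SpecMAC) (hSHT : SpecSHT) (hLML : SpecLML) : S.SpecTOP := by
  obtain ⟨M, hM⟩ := hMAC 28000000
  have key : ∀ (m : ℕ), M ≤ m → ∀ (V : Type) [Fintype V] (A : V → V → Prop) (dp dm : ℕ), dm ≤ dp → ¬ Vio A m dp dm := by
    intro m hm V _ A dp dm hle hV
    have : Nonempty V := Fintype.card_pos_iff.1 hV.hne
    obtain ⟨φ, η, hη, hpos, hloc⟩ := hM V A m dp dm hm hV.hcl hV.hout hV.hin hV.hK hV.hn
    obtain ⟨P⟩ := exists_pot (A := A) (φ := φ) (conn hV) hpos
    exact no_vio hSHT hLML hV P (hloc P) hη hle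
  refine ⟨M + 91, fun m hm => av_of_noVio (by omega) ?_⟩
  intro V _ A dp dm hV
  rcases Nat.le_total dm dp with h | h
  · exact key m (by omega) V A dp dm h hV
  · exact key m (by omega) V _ dm dp h (vio_rev hV)

end Pool.Agent.Lib.MP_83608f_co.AV.SH
end
end
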