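import Pool.Agent.Lib.MP_83608f_co.AV.SH.Spec
import Pool.Agent.Lib.MP_83608f_co.SH.S1
import Pool.Agent.Lib.MP_83608f_co.EM.Dig

section
/-!
# MP_83608f_co, part AV, SHORT route, module BAS (helper85): basic facts about an abstract cover
-/
set_option autoImplicit false

open Classical Finset

noncomputable section

namespace Pool.Agent.Lib.MP_83608f_co.AV.SH

open Pool.Agent.Lib.MP_83608f_co.CN (NoCl)
open Pool.Agent.Lib.MP_83608f_co.EM (Wk)

namespace BAS_

variable {X : Type} (C : Cv X)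

theorem d_le (l : ℤ) (x : X) (hx : C.lab x ≤ l) : C.d l ≤ C.dg l x := Nat.sInf_le ⟨x, hx, rfl⟩

theorem d_att (l : ℤ) : ∃ x, C.lab x ≤ l ∧ C.dg l x = C.d l := by
  obtain ⟨x, hx⟩ := C.occ l
  have hne : {k | ∃ x, C.lab x ≤ l ∧ C.dg l x = k}.Nonempty := ⟨_, x, by omega, rfl⟩
  exact Nat.sInf_mem hne

theorem arc_win (l : ℤ) (x y : X) (h : C.A x y) (hx : C.lab x ≤ l) (hy : l < C.lab y) :
    y ∈ C.win l (l + C.p) ∧ x ∈ C.win (l - C.p) l := by
  have h1 := C.up x y h
  exact ⟨(C.memwin _ _ _).2 ⟨hy, by omega⟩, (C.memwin _ _ _).2 ⟨by omega, hx⟩⟩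

theorem u_le (l : ℤ) : C.u ≤ C.XX l + C.d l := by
  obtain ⟨x, hx, hd⟩ := d_att C l
  rw [← hd]
  unfold Cv.dg Cv.XX
  have h1 := card_filter_add_card_filter_not (s := C.N x) (fun y => C.lab y ≤ l)
  have h2 : ((C.N x).filter fun y => ¬ C.lab y ≤ l) ⊆ C.win l (l + C.p) := by
    intro y hy
    rw [mem_filter, C.memN] at hy
    exact (arc_win C l x y hy.1 hx (by omega)).1
  have h3 := card_le_card h2
  have h4 := C.out x
  omega

theorem N_T (x : X) : C.N (C.T x) = (C.N x).map C.T.toEmbedding := by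
  ext y
  rw [C.memN, mem_map_equiv, C.memN]
  rw [← C.AT x (C.T.symm y), Equiv.apply_symm_apply]

theorem dg_T (l : ℤ) (x : X) : C.dg (l + C.q) (C.T x) = C.dg l x := by
  unfold Cv.dg
  rw [N_T, filter_map, card_map]
  congr 1
  refine filter_congr fun y _ => ?_
  simp only [Function.comp, Equiv.coe_toEmbedding, C.labT]
  omega

theorem d_per (l : ℤ) : C.d (l + C.q) = C.d l := by
  unfold Cv.d
  congr 1
  ext k
  constructor
  · rintro ⟨x, hx, hk⟩
    have h1 : C.T (C.T.symm x) = x := Equiv.apply_symm_apply _ _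
    refine ⟨C.T.symm x, ?_, ?_⟩
    · have := C.labT (C.T.symm x)
      rw [h1] at this
      omega
    · rw [← dg_T, h1, hk]
  · rintro ⟨x, hx, hk⟩
    refine ⟨C.T x, ?_, ?_⟩
    · have := C.labT x
      omega
    · rw [dg_T, hk]

theorem win_per (l l' : ℤ) : (C.win (l + C.q) (l' + C.q)).card = (C.win l l').card := by
  have h : C.win (l + C.q) (l' + C.q) = (C.win l l').map C.T.toEmbedding := by
    ext y
    rw [C.memwin, mem_map_equiv, C.memwin]
    have h1 : C.T (C.T.symm y) = y := Equiv.apply_symm_apply _ _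
    have h2 := C.labT (C.T.symm y)
    rw [h1] at h2
    omega
  rw [h, card_map]

theorem XX_per (l : ℤ) : C.XX (l + C.q) = C.XX l := by
  unfold Cv.XX
  rw [← win_per C l (l + C.p)]
  congr 2
  ring

theorem win_add (l l' l'' : ℤ) (h : l ≤ l') (h' : l' ≤ l'') :
    (C.win l l'').card = (C.win l l').card + (C.win l' l'').card := by
  have h1 : C.win l l'' = C.win l l' ∪ C.win l' l'' := by
    ext y
    rw [mem_union, C.memwin, C.memwin, C.memwin]
    omega
  rw [h1, card_union_of_disjoint]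
  rw [disjoint_left]
  intro y h2 h3
  rw [C.memwin] at h2 h3
  omega

theorem sum_Ico_range (q : ℕ) (f : ℤ → ℤ) : ∑ l ∈ Ico (0 : ℤ) q, f l = ∑ i ∈ range q, f i := by
  symm
  apply sum_bij (fun (i : ℕ) _ => (i : ℤ))
  · intro i hi
    rw [mem_range] at hi
    rw [mem_Ico]
    omega
  · intro i _ j _ h
    exact_mod_cast h
  · intro t ht
    rw [mem_Ico] at ht
    refine ⟨t.toNat, ?_, ?_⟩
    · rw [mem_range]
      omega
    · omega
  · intro i _
    rfl

theorem shift_range (q : ℕ) (f : ℤ → ℤ) (hf : ∀ l, f (l + q) = f l) (c : ℤ) :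
    ∑ i ∈ range q, f (i + c) = ∑ i ∈ range q, f i := by
  have hstep : ∀ c : ℤ, ∑ i ∈ range q, f (i + (c + 1)) = ∑ i ∈ range q, f (i + c) := by
    intro c
    have h1 := sum_range_succ (fun i : ℕ => f (i + c)) q
    have h2 := sum_range_succ' (fun i : ℕ => f (i + c)) q
    have h3 : f ((q : ℤ) + c) = f (((0 : ℕ) : ℤ) + c) := by
      have := hf c
      rw [show (q : ℤ) + c = c + q by ring, this]
      congr 1
      simp
    have h4 : ∑ i ∈ range q, f (((i + 1 : ℕ) : ℤ) + c) = ∑ i ∈ range q, f (i + (c + 1)) := by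
      refine sum_congr rfl fun i _ => ?_
      congr 1
      push_cast
      ring
    rw [← h4]
    linarith
  induction c using Int.induction_on with
  | zero => simp
  | succ k ih => rw [hstep, ih]
  | pred k ih =>
    rw [← ih, ← hstep (-(k : ℤ) - 1)]
    refine sum_congr rfl fun i _ => ?_
    congr 1
    ring

theorem shift_Ico (q : ℕ) (f : ℤ → ℤ) (c : ℤ) (hf : ∀ l, f (l + q) = f l) :
    ∑ l ∈ Ico (0 : ℤ) q, f (l + c) = ∑ l ∈ Ico (0 : ℤ) q, f l := by
  rw [sum_Ico_range q (fun l => f (l + c)), sum_Ico_range q f, shift_range q f hf c]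

theorem sum_one (k : ℕ) : ∑ i ∈ range k, ((C.win i (i + 1)).card : ℤ) = ((C.win 0 k).card : ℤ) := by
  induction k with
  | zero =>
    have : C.win 0 ((0 : ℕ) : ℤ) = ∅ := by
      ext y
      rw [C.memwin]
      simp
    rw [this]
    simp
  | succ k ih =>
    rw [sum_range_succ, ih]
    have := win_add C 0 k (k + 1) (by omega) (by omega)
    push_cast
    rw [this]
    push_cast
    ring

theorem sum_win (c : ℤ) (r : ℕ) : ∑ l ∈ Ico (0 : ℤ) C.q, (C.win (l + c) (l + c + r)).card = r * C.n := by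
  have key : ∑ l ∈ Ico (0 : ℤ) C.q, ((C.win (l + c) (l + c + r)).card : ℤ) = r * C.n := by
    induction r with
    | zero =>
      have h : ∀ l ∈ Ico (0 : ℤ) C.q, ((C.win (l + c) (l + c + ((0 : ℕ) : ℤ))).card : ℤ) = 0 := by
        intro l _
        have : C.win (l + c) (l + c + ((0 : ℕ) : ℤ)) = ∅ := by
          ext y
          rw [C.memwin]
          simp
        rw [this]
        simp
      rw [sum_congr rfl h]
      simp
    | succ r ih =>
      have h : ∀ l ∈ Ico (0 : ℤ) C.q, ((C.win (l + c) (l + c + ((r + 1 : ℕ) : ℤ))).card : ℤ) =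
          ((C.win (l + c) (l + c + r)).card : ℤ) + ((C.win (l + (c + r)) (l + (c + r) + 1)).card : ℤ) := by
        intro l _
        have := win_add C (l + c) (l + c + r) (l + c + ((r + 1 : ℕ) : ℤ)) (by omega) (by push_cast; omega)
        rw [this]
        push_cast
        congr 2
        rw [show l + (c + (r : ℤ)) = l + c + r by ring, show l + c + ((r : ℤ) + 1) = l + c + r + 1 by ring]
      rw [sum_congr rfl h, sum_add_distrib, ih]
      have h2 := shift_Ico C.q (fun l => ((C.win l (l + 1)).card : ℤ)) (c + r) (fun l => by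
        have := win_per C l (l + 1)
        rw [show l + (C.q : ℤ) + 1 = l + 1 + C.q by ring, this])
      rw [h2, sum_Ico_range, sum_one]
      have h3 := C.full 0
      rw [zero_add] at h3
      rw [h3]
      push_cast
      ring
  exact_mod_cast key

theorem anc (k : ℕ) (x : X) : ∃ z, Wk (⟨C.A⟩ : Digraph X) k z x ∧ C.lab x = C.lab z + C.p * k := by
  induction k with
  | zero => exact ⟨x, rfl, by simp⟩
  | succ k ih =>
    obtain ⟨z, hz, hl⟩ := ih
    obtain ⟨y, hy, hy2⟩ := C.tight z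
    refine ⟨y, ⟨z, hy, hz⟩, ?_⟩
    push_cast
    linarith

theorem lab_wk (j : ℕ) : ∀ (x y : X), Wk (⟨C.A⟩ : Digraph X) j x y → C.lab y ≤ C.lab x + C.p * j := by
  induction j with
  | zero =>
    intro x y h
    have : x = y := h
    rw [this]
    simp
  | succ j ih =>
    rintro x y ⟨z, h1, h2⟩
    have h3 := ih z y h2
    have h4 := C.up x z h1
    push_cast
    linarith

theorem rw_wk (Q : X → Prop) (j : ℕ) : ∀ (x y : X), C.Rw Q j x y → Wk (⟨C.A⟩ : Digraph X) j x y := by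
  induction j with
  | zero => exact fun x y h => h
  | succ j ih =>
    rintro x y ⟨z, h1, h2, -⟩
    exact (ih x z h1).snoc h2

theorem rw_Q (Q : X → Prop) (j : ℕ) (x y : X) (hx : Q x) (h : C.Rw Q j x y) : Q y := by
  cases j with
  | zero =>
    have : x = y := h
    rw [← this]
    exact hx
  | succ j =>
    obtain ⟨z, -, -, h3⟩ := h
    exact h3

theorem growth (l : ℤ) (x : X) (j : ℕ) (F : Finset X) (hx : C.lab x ≤ l) (hj : j ≤ C.m)
    (hF : ∀ i ≤ j, ∀ y, C.Rw (fun y => C.lab y ≤ l) i x y → y ∈ F) : j * C.d l ≤ F.card + 45 * C.d l := by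
  have hQ : ∀ i ≤ j, ∀ y, C.Rw (fun y => C.lab y ≤ l) i x y → y ∈ F.filter fun y => C.lab y ≤ l := fun i hi y hy =>
    mem_filter.2 ⟨hF i hi y hy, rw_Q C (fun y => C.lab y ≤ l) i x y hx hy⟩
  refine GRW_.growth C.cl (F.filter fun y => C.lab y ≤ l) x (hQ 0 (Nat.zero_le _) x rfl) j hj
    (fun i y => C.Rw (fun y => C.lab y ≤ l) i x y) rfl ?_ ?_ F (fun i hi y _ hy => hF i hi y hy)
  · intro i hi y _ hy
    refine (d_le C l y (rw_Q C (fun y => C.lab y ≤ l) i x y hx hy)).trans ?_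
    refine card_le_card fun z hz => ?_
    rw [mem_filter, C.memN] at hz
    rw [mem_filter]
    exact ⟨hQ (i + 1) (by omega) z ⟨y, hy, hz.1, hz.2⟩, hz.1⟩
  · intro i _ y _ hy z hz hyz
    exact ⟨y, hy, hyz, (mem_filter.1 hz).2⟩

theorem numbers : C.n ≤ C.m * C.u ∧ C.m * C.u ≤ C.m * C.v + 90 * C.u ∧ C.u ≤ 2 * C.v ∧ C.m * C.u ≤ 2 * C.n := by
  have h1 := C.hn
  have h2 := C.hn'
  have h3 := C.hvu
  have h4 := C.big
  have h5 := C.hH
  have h6 : C.m * C.v ≤ C.m * C.u := Nat.mul_le_mul_left _ h3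
  have h7 : C.m * (C.u + C.v) = C.m * C.u + C.m * C.v := by ring
  have h8 : 200 * C.u ≤ C.m * C.u := Nat.mul_le_mul_right _ (by omega)
  have h9 : C.m * C.u ≤ C.m * C.v + 90 * C.u := by omega
  refine ⟨by omega, h9, ?_, by omega⟩
  have h10 : C.m * C.u ≤ C.m * (2 * C.v) := by
    have : C.m * (2 * C.v) = 2 * (C.m * C.v) := by ring
    omega
  exact Nat.le_of_mul_le_mul_left h10 (by omega)

end BAS_

open BAS_ in
theorem specBAS : SpecBAS := fun _ C =>
  ⟨d_le C, d_att C, u_le C, d_per C, XX_per C, win_per C, win_add C, sum_win C, fun f c hf => shift_Ico C.q f c hf,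
    anc C, lab_wk C, rw_wk C, (numbers C).1, (numbers C).2.1, (numbers C).2.2.1, (numbers C).2.2.2, arc_win C, growth C⟩

end Pool.Agent.Lib.MP_83608f_co.AV.SH
end
end

section
/-!
# MP_83608f_co, SHORT route: LML and LMK (helper32), from the abstract two-ball lemmas of SH/S1
-/
set_option autoImplicit false

open Classical Finset

noncomputable section

namespace Pool.Agent.Lib.MP_83608f_co.AV.SH

open Pool.Agent.Lib.MP_83608f_co.CN (NoCl)
open Pool.Agent.Lib.MP_83608f_co.EM (Wk)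
open Pool.Agent.Lib.MP_83608f_co.SH (Two lemL lemK)

namespace LML_

variable {X : Type} (C : Cv X)

/-- walks inside `{label > l}` -/
def Up (l : ℤ) : ℕ → X → X → Prop
  | 0, x, y => x = y
  | j + 1, x, y => ∃ w, C.A x w ∧ Up l j w y ∧ l < C.lab x

variable {C}

lemma up_wk {l : ℤ} {j : ℕ} : ∀ {x y : X}, Up C l j x y → Wk (⟨C.A⟩ : Digraph X) j x y := by
  induction j with
  | zero =>
    intro x y h
    have : x = y := h
    rw [this]
    exact Wk.zero _
  | succ j ih =>
    rintro x y ⟨w, h1, h2, -⟩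
    exact Wk.cons h1 (ih h2)

lemma rw_wk {Q : X → Prop} {j : ℕ} : ∀ {x y : X}, C.Rw Q j x y → Wk (⟨C.A⟩ : Digraph X) j x y := by
  induction j with
  | zero =>
    intro x y h
    have : x = y := h
    rw [this]
    exact Wk.zero _
  | succ j ih =>
    rintro x y ⟨w, h1, h2, -⟩
    exact (ih h1).snoc h2

variable (C)

def Bl (l : ℤ) (z : X) (i : ℕ) : Finset X :=
  (C.win (l - (C.H + 4) * C.p) l).filter fun y => ∃ L ≤ i, C.Rw (fun y => C.lab y ≤ l) L z y

def Yl (l : ℤ) (z : X) (j : ℕ) : Finset X :=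
  (C.win l (l + (C.H + 4) * C.p)).filter fun y => ∃ L ≤ j, ∃ t, C.A t z ∧ l < C.lab t ∧ Up C l L y t

variable {C}

lemma mem_Bl {l : ℤ} {z y : X} {i : ℕ} :
    y ∈ Bl C l z i ↔ (l - (C.H + 4) * C.p < C.lab y ∧ C.lab y ≤ l) ∧ ∃ L ≤ i, C.Rw (fun y => C.lab y ≤ l) L z y := by
  unfold Bl
  rw [mem_filter, C.memwin]

lemma mem_Yl {l : ℤ} {z y : X} {j : ℕ} :
    y ∈ Yl C l z j ↔ (l < C.lab y ∧ C.lab y ≤ l + (C.H + 4) * C.p) ∧
      ∃ L ≤ j, ∃ t, C.A t z ∧ l < C.lab t ∧ Up C l L y t := by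
  unfold Yl
  rw [mem_filter, C.memwin]

structure Stay (C : Cv X) (h : ℕ) (l : ℤ) (z : X) : Prop where
  le : C.lab z ≤ l
  stay : ∀ L ≤ h, ∀ y, Wk (⟨C.A⟩ : Digraph X) L z y → l - (C.H + 4) * C.p < C.lab y

lemma Bl_next {h : ℕ} {l : ℤ} {z : X} (hS : Stay C h l z) {i : ℕ} (hi : i < h)
    {x y : X} (hx : x ∈ Bl C l z i) (hxy : C.A x y) (hy : C.lab y ≤ l) : y ∈ Bl C l z (i + 1) := by
  rw [mem_Bl] at hx ⊢
  obtain ⟨-, L, h2, h3⟩ := hx
  have h4 : C.Rw (fun y => C.lab y ≤ l) (L + 1) z y := ⟨x, h3, hxy, hy⟩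
  exact ⟨⟨hS.stay (L + 1) (by omega) y (rw_wk h4), hy⟩, L + 1, by omega, h4⟩

lemma Yl_next {h : ℕ} {l : ℤ} {z : X} (hz : C.lab z ≤ l) (h8 : 8 * (h + 1) ≤ C.m) {j : ℕ} (hj : j < h)
    {x y : X} (hy : y ∈ Yl C l z j) (hxy : C.A x y) (hx : l < C.lab x) : x ∈ Yl C l z (j + 1) := by
  rw [mem_Yl] at hy ⊢
  obtain ⟨-, L, h2, t, h3, h4, h5⟩ := hy
  have h6 : Up C l (L + 1) x t := ⟨y, hxy, h5, hx⟩
  refine ⟨⟨hx, ?_⟩, L + 1, by omega, t, h3, h4, h6⟩
  have h7 := C.drop _ _ _ ((up_wk h6).snoc h3) (by omega)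
  have hp : (0 : ℤ) ≤ C.p := Int.natCast_nonneg _
  linarith

lemma two {h : ℕ} {l : ℤ} {z : X} (hS : Stay C h l z) (h8 : 8 * (h + 1) ≤ C.m) :
    Two C.N C.M (Bl C l z) (Yl C l z) (C.win l (l + C.p)) (C.win (l - C.p) l) h := by
  refine ⟨?_, ?_, ?_, ?_, ?_, ?_, ?_⟩
  · intro i y hy
    rw [mem_Bl] at hy ⊢
    obtain ⟨h1, L, h2, h3⟩ := hy
    exact ⟨h1, L, by omega, h3⟩
  · intro i y hy
    rw [mem_Yl] at hy ⊢
    obtain ⟨h1, L, h2, h3⟩ := hy
    exact ⟨h1, L, by omega, h3⟩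
  · intro i hi x hx y hy
    rw [C.memN] at hy
    rcases le_or_gt (C.lab y) l with h1 | h1
    · exact Or.inl (Bl_next hS hi hx hy h1)
    · right
      have h2 := C.up _ _ hy
      have h3 := (mem_Bl.1 hx).1
      exact (C.memwin _ _ _).2 ⟨h1, by linarith⟩
  · intro j hj y hy x hx
    rw [C.memM] at hx
    rcases lt_or_ge l (C.lab x) with h1 | h1
    · exact Or.inl (Yl_next hS.le h8 hj hy hx h1)
    · right
      have h2 := C.up _ _ hx
      have h3 := (mem_Yl.1 hy).1
      exact (C.memwin _ _ _).2 ⟨by linarith, h1⟩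
  · intro j hj y hy hyP x hx
    rw [C.memM] at hx
    have h3 := (mem_Yl.1 hy).1
    have h4 : l + C.p < C.lab y := by
      by_contra h
      push Not at h
      exact hyP ((C.memwin _ _ _).2 ⟨h3.1, h⟩)
    have h2 := C.up _ _ hx
    exact Yl_next hS.le h8 hj hy hx (by linarith)
  · intro i hi x hx hxP y hy
    rw [C.memN] at hy
    have h3 := (mem_Bl.1 hx).1
    have h4 : C.lab x ≤ l - C.p := by
      by_contra h
      push Not at h
      exact hxP ((C.memwin _ _ _).2 ⟨h, h3.2⟩)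
    have h2 := C.up _ _ hy
    exact Bl_next hS hi hx hy (by linarith)
  · intro i hi x hx y hy j hj hyY
    rw [C.memN] at hy
    obtain ⟨-, L, h1, h2⟩ := mem_Bl.1 hx
    obtain ⟨-, L', h3, t, h4, -, h5⟩ := mem_Yl.1 hyY
    have h6 := (((rw_wk h2).snoc hy).trans (up_wk h5)).snoc h4
    exact C.cl _ (by omega) (by omega) z h6

variable (C)

lemma card_win_shift (l l' : ℤ) : (C.win (l + C.q) (l' + C.q)).card = (C.win l l').card := by
  symm
  refine card_bij (fun x _ => C.T x) ?_ ?_ ?_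
  · intro x hx
    rw [C.memwin] at hx ⊢
    rw [C.labT]
    exact ⟨by linarith, by linarith⟩
  · intro x _ y _ h
    exact C.T.injective h
  · intro y hy
    rw [C.memwin] at hy
    refine ⟨C.T.symm y, ?_, by simp⟩
    rw [C.memwin]
    have := C.labT (C.T.symm y)
    rw [C.T.apply_symm_apply] at this
    exact ⟨by linarith, by linarith⟩

lemma win_up (hW : C.Small) (l : ℤ) : 1000000 * (C.win l (l + (C.H + 4) * C.p)).card ≤ C.m * C.u := by
  have := hW.1 (l + (C.H + 4) * C.p)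
  rwa [show l + ((C.H : ℤ) + 4) * C.p - (C.H + 4) * C.p = l by ring] at this

/-- numbers -/
lemma hm (C : Cv X) : 280000000 ≤ C.m := by
  have h1 := C.hH
  have h2 := C.big
  have h3 : 28000000 * 10 ≤ 28000000 * C.H := Nat.mul_le_mul_left _ h1
  omega

lemma hv_ge : (C.u : ℝ) * (1 - 1 / 10 ^ 6) ≤ C.v := by
  have h1 : C.m * C.u ≤ C.m * C.v + 90 * C.u := by
    have h1 := C.hn'
    have h2 := C.hn
    have h3 : C.m * (C.u + C.v) = C.m * C.u + C.m * C.v := by ring
    omega
  have h1' : (C.m : ℝ) * C.u ≤ C.m * C.v + 90 * C.u := by exact_mod_cast h1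
  have h2 : (280000000 : ℝ) ≤ C.m := by exact_mod_cast hm C
  have h3 : (0 : ℝ) ≤ C.u := Nat.cast_nonneg _
  have h4 : 90 * (C.u : ℝ) ≤ C.m * (C.u / 10 ^ 6) := by nlinarith
  have h5 : (C.m : ℝ) * (C.u * (1 - 1 / 10 ^ 6)) ≤ C.m * C.v := by linarith
  exact le_of_mul_le_mul_left h5 (by linarith)

lemma small_s (hu : 1 ≤ C.u) {w : ℕ} (hw : 1000000 * w ≤ C.m * C.u) {k : ℕ} (hk : C.m ≤ 40 * k) :
    (w : ℝ) ≤ (C.u / 20000 : ℝ) * ((C.m : ℝ) - 44) ∧ (w : ℝ) ≤ (C.u / 20000 : ℝ) * k := by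
  have h1 : (1000000 : ℝ) * w ≤ C.m * C.u := by exact_mod_cast hw
  have h2 : (280000000 : ℝ) ≤ C.m := by exact_mod_cast hm C
  have h3 : (1 : ℝ) ≤ C.u := by exact_mod_cast hu
  have h4 : (C.m : ℝ) ≤ 40 * k := by exact_mod_cast hk
  constructor
  · nlinarith
  · have : (C.m : ℝ) * C.u ≤ 40 * k * C.u := mul_le_mul_of_nonneg_right h4 (by linarith)
    nlinarith

lemma hu : 1 ≤ C.u := le_trans C.hv C.hvu

end LML_

open LML_

theorem specLML : SpecLML := by
  intro X C hW l x z hxz hx hz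
  have hm9 := hm C
  obtain ⟨k, hk⟩ : ∃ k, k = C.m / 32 - 1 := ⟨_, rfl⟩
  have hk1 : 32 * (k + 1) ≤ C.m := by omega
  have hk2 : C.m ≤ 40 * k := by omega
  have hp : (0 : ℤ) < C.p := by exact_mod_cast C.hp
  have hS : Stay C (2 * k) l z := by
    refine ⟨hz, fun L hL y hy => ?_⟩
    have := C.drop _ _ _ (Wk.cons hxz hy) (by omega)
    linarith
  have hT := two hS (by omega)
  have hB : 1000000 * (Bl C l z (2 * k)).card ≤ C.m * C.u :=
    (Nat.mul_le_mul_left _ (card_filter_le _ _)).trans (hW.1 l)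
  have hY : 1000000 * (Yl C l z (2 * k)).card ≤ C.m * C.u :=
    (Nat.mul_le_mul_left _ (card_filter_le _ _)).trans (win_up C hW l)
  obtain ⟨b1, b2⟩ := small_s C (hu C) hB hk2
  obtain ⟨b3, b4⟩ := small_s C (hu C) hY hk2
  have hu1 : (1 : ℝ) ≤ C.u := by exact_mod_cast hu C
  have hv1 := hv_ge C
  unfold Cv.XX
  rw [sub_add_cancel]
  refine lemL (R := C.A) (m := C.m) C.cl (by omega) C.N C.M (fun x y hy => (C.memN x y).1 hy)
    (fun y x hx => (C.memM y x).1 hx) (fun x y => (C.memN x y).trans (C.memM y x).symm) C.out C.inn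
    (Bl C l z) (Yl C l z) _ _ k (by omega) hT ⟨z, ?_⟩ ⟨x, ?_⟩ (by omega) (C.u / 20000) b1 b2 b3 b4 (by linarith)
    (by linarith)
  · rw [mem_Bl]
    exact ⟨⟨hS.stay 0 (Nat.zero_le _) z (Wk.zero _), hz⟩, 0, le_rfl, rfl⟩
  · rw [mem_Yl]
    refine ⟨⟨hx, ?_⟩, 0, le_rfl, x, hxz, hx, rfl⟩
    have := C.drop _ _ _ (Wk.one.2 hxz) (by omega)
    linarith

theorem specLMK : SpecLMK := by
  intro X C hW l z F hz hz' hF
  have hm9 := hm C
  obtain ⟨k, hk⟩ : ∃ k, k = C.m / 16 - 1 := ⟨_, rfl⟩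
  have hk1 : 16 * (k + 1) ≤ C.m := by omega
  have hk3 : C.m ≤ 16 * k + 31 := by omega
  have hk2 : C.m ≤ 40 * k := by omega
  have hp : (0 : ℤ) < C.p := by exact_mod_cast C.hp
  have hS : Stay C (2 * k) l z := by
    refine ⟨hz, fun L hL y hy => ?_⟩
    have := C.drop _ _ _ hy (by omega)
    linarith
  have hT := two hS (by omega)
  have hB : 1000000 * (Bl C l z (2 * k)).card ≤ C.m * C.u :=
    (Nat.mul_le_mul_left _ (card_filter_le _ _)).trans (hW.1 l)
  have hY : 1000000 * (Yl C l z (2 * k)).card ≤ C.m * C.u :=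
    (Nat.mul_le_mul_left _ (card_filter_le _ _)).trans (win_up C hW l)
  obtain ⟨b1, b2⟩ := small_s C (hu C) hB hk2
  obtain ⟨b3, b4⟩ := small_s C (hu C) hY hk2
  have hu1 : (1 : ℝ) ≤ C.u := by exact_mod_cast hu C
  have hv1 := hv_ge C
  have hm1 : (280000000 : ℝ) ≤ C.m := by exact_mod_cast hm9
  obtain ⟨Z, hZ⟩ : ∃ Z, Z = (C.M z).filter fun y => l < C.lab y := ⟨_, rfl⟩
  rw [← hZ]
  have hBF : (Bl C l z (2 * k)).card ≤ F.card := by
    refine card_le_card fun y hy => ?_
    obtain ⟨-, L, h1, h2⟩ := mem_Bl.1 hy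
    exact hF L (by omega) y h2
  have hXX : (C.win l (l + C.p)).card ≤ (C.XX l - C.u) + C.u := by
    unfold Cv.XX
    omega
  have hXX' : ((C.win l (l + C.p)).card : ℝ) ≤ ((C.XX l - C.u : ℕ) : ℝ) + C.u := by exact_mod_cast hXX
  have hgoal : (C.m : ℝ) * Z.card ≤ 10 * F.card + 400 * (C.m * ((C.XX l - C.u : ℕ) : ℝ)) := by
    have hX0 : (0 : ℝ) ≤ ((C.XX l - C.u : ℕ) : ℝ) := Nat.cast_nonneg _
    by_cases hP : ((C.win l (l + C.p)).card : ℝ) ≤ C.u + C.v / 2
    · have h1 := lemK (R := C.A) (m := C.m) C.cl (by omega) C.N C.M (fun x y hy => (C.memN x y).1 hy)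
        (fun y x hx => (C.memM y x).1 hx) C.out C.inn
        (Bl C l z) (Yl C l z) _ _ k (by omega) hT ⟨z, by
          rw [mem_Bl]
          exact ⟨⟨hS.stay 0 (Nat.zero_le _) z (Wk.zero _), hz⟩, 0, le_rfl, rfl⟩⟩ (C.u / 20000) b1 b2 b3 b4
        (by linarith) hP
      have hZY : Z ⊆ Yl C l z 0 := by
        intro y hy
        rw [hZ, mem_filter, C.memM] at hy
        rw [mem_Yl]
        refine ⟨⟨hy.2, ?_⟩, 0, le_rfl, y, hy.1, hy.2, rfl⟩
        have := C.drop _ _ _ (Wk.one.2 hy.1) (by omega)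
        linarith
      have hZc : (Z.card : ℝ) ≤ (Yl C l z 0).card := by exact_mod_cast card_le_card hZY
      have hBFr : ((Bl C l z (2 * k)).card : ℝ) ≤ F.card := by exact_mod_cast hBF
      obtain ⟨b, hb⟩ : ∃ b : ℝ, b = (Bl C l z (2 * k)).card := ⟨_, rfl⟩
      rw [← hb] at h1 hBFr
      have hb0 : 0 ≤ b := by rw [hb]; exact Nat.cast_nonneg _
      obtain ⟨μ, hμ⟩ : ∃ μ : ℝ, μ = C.m := ⟨_, rfl⟩
      rw [← hμ] at h1 hm1 ⊢
      have hkr : μ ≤ 8.01 * ((2 * k : ℕ) : ℝ) := by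
        have h2 : (C.m : ℝ) ≤ 16 * k + 31 := by exact_mod_cast hk3
        rw [← hμ] at h2
        push_cast
        linarith
      have hk0 : (0 : ℝ) < ((2 * k : ℕ) : ℝ) := by linarith
      have e1 : μ * (b / (μ - 44)) ≤ 1.01 * b := by
        rw [mul_div_assoc', div_le_iff₀ (by linarith)]
        nlinarith
      have e2 : μ * (b / ((2 * k : ℕ) : ℝ)) ≤ 8.01 * b := by
        rw [mul_div_assoc', div_le_iff₀ hk0]
        nlinarith
      have hμ0 : 0 ≤ μ := by linarith
      have e3 : μ * Z.card ≤ μ * (((C.XX l - C.u : ℕ) : ℝ) + b / (μ - 44) + b / ((2 * k : ℕ) : ℝ)) :=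
        mul_le_mul_of_nonneg_left (by linarith) hμ0
      have e4 : 0 ≤ μ * ((C.XX l - C.u : ℕ) : ℝ) := mul_nonneg hμ0 hX0
      nlinarith
    · push Not at hP
      have h2 : Z.card ≤ 46 * C.u := by
        rw [hZ]
        exact (card_filter_le _ _).trans (C.deg z)
      have h3 : (Z.card : ℝ) ≤ 46 * C.u := by exact_mod_cast h2
      have h4 : (0 : ℝ) ≤ C.m := Nat.cast_nonneg _
      have h5 : (C.m : ℝ) * Z.card ≤ C.m * (46 * C.u) := mul_le_mul_of_nonneg_left h3 h4
      have h6 : (C.u : ℝ) * 0.4 ≤ ((C.XX l - C.u : ℕ) : ℝ) := by linarith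
      have h7 : (C.m : ℝ) * (C.u * 0.4) ≤ C.m * ((C.XX l - C.u : ℕ) : ℝ) := mul_le_mul_of_nonneg_left h6 h4
      have h8 : (0 : ℝ) ≤ F.card := Nat.cast_nonneg _
      have h9 : (0 : ℝ) ≤ (C.m : ℝ) * C.u := mul_nonneg h4 (by linarith)
      nlinarith
  exact_mod_cast hgoal

end Pool.Agent.Lib.MP_83608f_co.AV.SH
end
end

section
/-! MP_83608f_co, part AV, SHORT route, module LOC5 (helper91): the local part of section 5. -/
set_option autoImplicit false

open Classical Finset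

noncomputable section

namespace Pool.Agent.Lib.MP_83608f_co.AV.SH

open Pool.Agent.Lib.MP_83608f_co.CN (NoCl)
open Pool.Agent.Lib.MP_83608f_co.EM (Wk)

namespace LOC5_

lemma pigeon (b : ℕ → ℕ) (h : ℕ) (hh : 1 ≤ h) : ∃ j < h, h * (b (j + 1) - b j) ≤ b h := by
  by_contra hcon
  push Not at hcon
  have key : ∀ k ≤ h, k * b h + k ≤ h * b k := by
    intro k
    induction k with
    | zero =>
      intro _
      simp
    | succ k ih =>
      intro hk
      have h1 := ih (by omega)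
      have h2 := hcon k (by omega)
      have h3 : b k ≤ b (k + 1) := by
        by_contra h4
        rw [show b (k + 1) - b k = 0 by omega] at h2
        omega
      have h4 : h * (b (k + 1) - b k) + h * b k = h * b (k + 1) := by
        rw [← Nat.mul_add]
        congr 1
        omega
      have h5 : (k + 1) * b h = k * b h + b h := by ring
      omega
  have := key h le_rfl
  omega

variable {X : Type} (C : Cv X)

lemma m_big : 280000000 ≤ C.m := by
  have h1 := C.hH
  have h2 := C.big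
  omega

lemma card_split (S : Finset X) (l : ℤ) :
    S.card = (S.filter fun y => C.lab y ≤ l).card + (S.filter fun y => l < C.lab y).card := by
  rw [← card_filter_add_card_filter_not (s := S) (fun y => C.lab y ≤ l)]
  congr 2
  ext y
  simp only [mem_filter, not_le]

/-- (CR): a vertex `w` of `G_(l+p)` reached from `z`. -/
lemma cross (hB : SpecBAS) (hS : C.Small) (l : ℤ) (z w : X) (i : ℕ) (hi : i ≤ C.m / 8 - 2)
    (hw : Wk (⟨C.A⟩ : Digraph X) i z w) (hz : l < C.lab z) (hwl : C.lab w ≤ l) :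
    3 * C.u ≤ 4 * ((C.win l (l + C.p)).filter fun y => ¬ C.A y z).card := by
  obtain ⟨b1, b2, b3, b4, b5, b6, b7, b8, b8', b9, b10, b10', b11a, b11b, b11c, b11d, b12, b13⟩ := hB X C
  obtain ⟨s1, s2, s3⟩ := hS
  have hm := m_big C
  have hu : 1 ≤ C.u := C.hv.trans C.hvu
  obtain ⟨h, hh⟩ : ∃ h, h = C.m / 8 - 2 := ⟨_, rfl⟩
  rw [← hh] at hi
  have hh1 : 1 ≤ h := by omega
  -- the ball of radius `j` around `w` inside `G_l`
  obtain ⟨Q, hQ⟩ : ∃ Q : X → Prop, Q = fun y => C.lab y ≤ l := ⟨_, rfl⟩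
  obtain ⟨Bg, hBg⟩ : ∃ Bg : Finset X, Bg = C.win (l - (C.H + 4) * C.p) l ∪
      C.win (l - (C.H + 4) * C.p - (C.H + 4) * C.p) (l - (C.H + 4) * C.p) := ⟨_, rfl⟩
  have hBgc : 1000000 * Bg.card ≤ 2 * (C.m * C.u) := by
    rw [hBg]
    have h1 := card_union_le (C.win (l - (C.H + 4) * C.p) l)
      (C.win (l - (C.H + 4) * C.p - (C.H + 4) * C.p) (l - (C.H + 4) * C.p))
    have h2 := s1 l
    have h3 := s1 (l - (C.H + 4) * C.p)
    omega
  obtain ⟨B, hBd⟩ : ∃ B : ℕ → Finset X, B = fun j => Bg.filter fun y => ∃ i' ≤ j, C.Rw Q i' w y := ⟨_, rfl⟩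
  have hBm : ∀ j y, y ∈ B j ↔ y ∈ Bg ∧ ∃ i' ≤ j, C.Rw Q i' w y := by
    intro j y
    rw [hBd]
    simp only [mem_filter]
  have hlabQ : ∀ i' y, C.Rw Q i' w y → C.lab y ≤ l := by
    intro i' y hy
    cases i' with
    | zero =>
      have : w = y := hy
      rw [← this]
      exact hwl
    | succ i' =>
      obtain ⟨t, -, -, h3⟩ := hy
      rw [hQ] at h3
      exact h3
  have hreach : ∀ i' ≤ h, ∀ y, C.Rw Q i' w y → y ∈ Bg := by
    intro i' hi' y hy
    have h1 := C.drop i z w hw (by omega)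
    have h2 := C.drop i' w y (b10' Q i' w y hy) (by omega)
    have h3 := hlabQ i' y hy
    have hp : (0 : ℤ) ≤ C.p := Int.natCast_nonneg _
    rw [hBg, mem_union, C.memwin, C.memwin]
    by_cases h4 : l - (C.H + 4) * C.p < C.lab y
    · exact Or.inl ⟨h4, h3⟩
    · refine Or.inr ⟨?_, by omega⟩
      have h5 : ((C.H : ℤ) + 4) * C.p = C.H * C.p + 4 * C.p := by ring
      rw [h5]
      rw [h5] at h4
      omega
  obtain ⟨j, hj, hjg⟩ := pigeon (fun j => (B j).card) h hh1
  have hBh : (B h).card ≤ Bg.card := card_le_card fun y hy => ((hBm h y).1 hy).1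
  have hBj : (B j).card ≤ Bg.card := card_le_card fun y hy => ((hBm j y).1 hy).1
  have hBsub : B j ⊆ B (j + 1) := by
    intro y hy
    rw [hBm] at hy ⊢
    obtain ⟨h1, i', h2, h3⟩ := hy
    exact ⟨h1, i', by omega, h3⟩
  have hwB : w ∈ B j := by
    rw [hBm]
    exact ⟨hreach 0 (by omega) w rfl, 0, by omega, rfl⟩
  obtain ⟨x, hx, hxl⟩ := GRW_.exists_low C.cl (B j) ⟨w, hwB⟩
  -- the inner degree of `x`
  have hxB := (hBm j x).1 hx
  obtain ⟨ix, hix, hxR⟩ := hxB.2
  have hxlab : C.lab x ≤ l := hlabQ ix x hxR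
  have hin : ((C.N x).filter fun y => C.lab y ≤ l) ⊆
      ((B j).filter fun y => C.A x y) ∪ (B (j + 1) \ B j) := by
    intro y hy
    rw [mem_filter, C.memN] at hy
    have h1 : C.Rw Q (ix + 1) w y := ⟨x, hxR, hy.1, by rw [hQ]; exact hy.2⟩
    have h2 : y ∈ B (j + 1) := by
      rw [hBm]
      exact ⟨hreach (ix + 1) (by omega) y h1, ix + 1, by omega, h1⟩
    rw [mem_union, mem_sdiff, mem_filter]
    by_cases h3 : y ∈ B j
    · exact Or.inl ⟨h3, hy.1⟩
    · exact Or.inr ⟨h2, h3⟩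
  have hin2 := (card_le_card hin).trans (card_union_le _ _)
  rw [card_sdiff_of_subset hBsub] at hin2
  have hsplit := card_split C (C.N x) l
  have hout := C.out x
  -- the outer part
  have hsub : ((C.N x).filter fun y => l < C.lab y) ⊆ ((C.win l (l + C.p)).filter fun y => ¬ C.A y z) := by
    intro y hy
    rw [mem_filter, C.memN] at hy
    rw [mem_filter]
    refine ⟨(b12 l x y hy.1 hxlab hy.2).1, fun hyz => ?_⟩
    have h1 := b10' Q ix w x hxR
    have h2 : Wk (⟨C.A⟩ : Digraph X) (i + ix + 1 + 1) z z := ((hw.trans h1).snoc hy.1).snoc hyz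
    exact C.cl (i + ix + 1 + 1) (by omega) (by omega) z h2
  have hsub2 := card_le_card hsub
  -- numbers
  have e1 : 4 * ((B j).filter fun y => C.A x y).card * 2 ≤ C.u := by
    have h1 : (C.m - 44) * ((B j).filter fun y => C.A x y).card ≤ Bg.card := hxl.trans hBj
    by_contra hcon
    push Not at hcon
    have h2 : 1000000 * ((C.m - 44) * ((B j).filter fun y => C.A x y).card) ≤ 2 * (C.m * C.u) :=
      (Nat.mul_le_mul_left _ h1).trans hBgc
    have h3 : C.m ≤ 2 * (C.m - 44) := by omega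
    have h4 : C.m * C.u < C.m * (4 * ((B j).filter fun y => C.A x y).card * 2) :=
      Nat.mul_lt_mul_of_pos_left hcon (by omega)
    have h5 : C.m * (4 * ((B j).filter fun y => C.A x y).card * 2) ≤
        2 * (C.m - 44) * (4 * ((B j).filter fun y => C.A x y).card * 2) := Nat.mul_le_mul_right _ h3
    have h6 : 2 * (C.m - 44) * (4 * ((B j).filter fun y => C.A x y).card * 2) =
        16 * ((C.m - 44) * ((B j).filter fun y => C.A x y).card) := by ring
    omega
  have e2 : 8 * ((B (j + 1)).card - (B j).card) ≤ C.u := by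
    by_contra hcon
    push Not at hcon
    have h1 : 1000000 * (h * ((B (j + 1)).card - (B j).card)) ≤ 2 * (C.m * C.u) :=
      (Nat.mul_le_mul_left _ (hjg.trans hBh)).trans hBgc
    have h3 : C.m ≤ 9 * h := by omega
    have h4 : C.m * C.u < C.m * (8 * ((B (j + 1)).card - (B j).card)) :=
      Nat.mul_lt_mul_of_pos_left hcon (by omega)
    have h5 : C.m * (8 * ((B (j + 1)).card - (B j).card)) ≤ 9 * h * (8 * ((B (j + 1)).card - (B j).card)) :=
      Nat.mul_le_mul_right _ h3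
    have h6 : 9 * h * (8 * ((B (j + 1)).card - (B j).card)) = 72 * (h * ((B (j + 1)).card - (B j).card)) := by
      ring
    omega
  omega

end LOC5_

/-- section 5, local part -/
theorem specLOC5 (hB : SpecBAS) (hK : SpecLMK) : SpecLOC5 := by
  intro X C hS D hD hDp l
  have hcross := LOC5_.cross C hB hS
  have hS' := hS
  obtain ⟨b1, b2, b3, b4, b5, b6, b7, b8, b8', b9, b10, b10', b11a, b11b, b11c, b11d, b12, b13⟩ := hB X C
  obtain ⟨s1, s2, s3⟩ := hS
  have hm := LOC5_.m_big C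
  have hu : 1 ≤ C.u := C.hv.trans C.hvu
  obtain ⟨v, hvl, hvd⟩ := b2 l
  have hsplit := LOC5_.card_split C (C.N v) l
  have hdg : ((C.N v).filter fun y => C.lab y ≤ l).card = C.d l := hvd
  have hout := C.out v
  have hs2 := s2 l
  -- the label of `v`
  have hlam : l - C.p < C.lab v := by
    by_contra hcon
    push Not at hcon
    have h1 : ((C.N v).filter fun y => l < C.lab y) = ∅ := by
      rw [filter_eq_empty_iff]
      intro y hy
      rw [C.memN] at hy
      have := C.up v y hy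
      omega
    rw [h1, card_empty] at hsplit
    omega
  have hDpZ : 2 * (D : ℤ) < C.p := by exact_mod_cast hDp
  have w1 := b7 l (l + C.p) (l + 2 * C.p) (by omega) (by omega)
  have w2 := b7 (l + C.p) (l + 2 * C.p - D) (l + 2 * C.p) (by omega) (by omega)
  by_cases hty : C.lab v ≤ l - C.p + D
  · -- type 2
    right
    have hS1 : ((C.N v).filter fun y => l < C.lab y) ⊆ C.win l (l + D) := by
      intro y hy
      rw [mem_filter, C.memN] at hy
      rw [C.memwin]
      have := C.up v y hy.1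
      exact ⟨hy.2, by omega⟩
    have hS2 := card_le_card hS1
    refine ⟨by omega, by omega, ?_⟩
    have w3 := b7 l (l + C.p - D) (l + 2 * C.p) (by omega) (by omega)
    have w4 := b7 (l + C.p - D) (l + 2 * C.p - D) (l + 2 * C.p) (by omega) (by omega)
    have w5 := b7 l (l + D) (l + C.p - D) (by omega) (by omega)
    have x1 : (C.win (l + C.p - D) (l + 2 * C.p - D)).card = C.XX (l + C.p - D) := by
      unfold Cv.XX
      congr 2
      ring
    have x2 : (C.win l (l + C.p)).card = C.XX l := rfl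
    have x3 : (C.win (l + C.p) (l + 2 * C.p)).card = C.XX (l + C.p) := by
      unfold Cv.XX
      congr 2
      ring
    have x4 := b3 (l + C.p - D)
    omega
  · -- type 1
    left
    obtain ⟨z, hzW, hzl⟩ := b9 (C.m - 2) (C.T v)
    rw [C.labT] at hzl
    have hzlab : C.lab z = C.lab v + 2 * C.p - D := by
      have h1 : (C.q : ℤ) + D = C.p * C.m := by exact_mod_cast hD
      have h2 : ((C.m - 2 : ℕ) : ℤ) = C.m - 2 := by
        rw [Nat.cast_sub (by omega)]
        rfl
      rw [h2] at hzl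
      have h3 : (C.p : ℤ) * (C.m - 2) = C.p * C.m - 2 * C.p := by ring
      rw [h3] at hzl
      omega
    have hzz : ¬ C.A z z := fun h => C.cl 1 le_rfl (by omega) z (EM.Wk.one.2 h)
    -- girth
    have hgir : ∀ b, C.A v b → ¬ C.A b z := by
      intro b h1 h2
      have h3 : Wk (⟨C.A⟩ : Digraph X) (C.m - 2 + 1 + 1) v (C.T v) := (hzW.cons h2).cons h1
      exact C.clT (C.m - 2 + 1 + 1) v (by omega) (by omega) h3
    have hMlab : ∀ y ∈ C.M z, l < C.lab y := by
      intro y hy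
      rw [C.memM] at hy
      have := C.up y z hy
      omega
    refine ⟨((C.win (l + C.p) (l + 2 * C.p - D)).filter fun y => ¬ C.A y z).card,
      ((C.M z).filter fun y => l + 2 * C.p - D < C.lab y).card, ?_⟩
    obtain ⟨miss, hmiss⟩ : ∃ k, k = ((C.win (l + C.p) (l + 2 * C.p - D)).filter fun y => ¬ C.A y z).card := ⟨_, rfl⟩
    obtain ⟨xl, hxl⟩ : ∃ k, k = ((C.M z).filter fun y => l + 2 * C.p - D < C.lab y).card := ⟨_, rfl⟩
    obtain ⟨rho, hrho⟩ : ∃ k, k = (C.win (l + 2 * C.p - D) (l + 2 * C.p)).card := ⟨_, rfl⟩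
    unfold Type1
    rw [← hmiss, ← hxl, ← hrho]
    have x2 : (C.win l (l + C.p)).card = C.XX l := rfl
    have x3 : (C.win (l + C.p) (l + 2 * C.p)).card = C.XX (l + C.p) := by
      unfold Cv.XX
      congr 2
      ring
    -- `z` is missed
    have hmiss1 : 1 ≤ miss := by
      rw [hmiss, Nat.one_le_iff_ne_zero, Finset.card_ne_zero]
      refine ⟨z, ?_⟩
      rw [mem_filter, C.memwin]
      exact ⟨⟨by omega, by omega⟩, hzz⟩
    -- (R4)
    have hR4 : (miss : ℤ) + rho ≤ C.d l + C.XX l + C.XX (l + C.p) - C.u - C.v + xl := by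
      have a1 : ((C.N v).filter fun y => l < C.lab y) ∪ ((C.M z).filter fun y => C.lab y ≤ l + C.p) ⊆
          C.win l (l + C.p) := by
        intro y hy
        rw [mem_union, mem_filter, mem_filter, C.memN] at hy
        rw [C.memwin]
        rcases hy with hy | hy
        · have := C.up v y hy.1
          exact ⟨hy.2, by omega⟩
        · exact ⟨hMlab y hy.1, hy.2⟩
      have a2 : Disjoint ((C.N v).filter fun y => l < C.lab y) ((C.M z).filter fun y => C.lab y ≤ l + C.p) := by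
        rw [disjoint_left]
        intro y h1 h2
        rw [mem_filter, C.memN] at h1
        rw [mem_filter, C.memM] at h2
        exact hgir y h1.1 h2.1
      have a3 := card_le_card a1
      rw [card_union_of_disjoint a2, x2] at a3
      have a4 := LOC5_.card_split C (C.M z) (l + C.p)
      have a5 := LOC5_.card_split C ((C.M z).filter fun y => l + C.p < C.lab y) (l + 2 * C.p - D)
      have a6 : (((C.M z).filter fun y => l + C.p < C.lab y).filter fun y => l + 2 * C.p - D < C.lab y).card = xl := by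
        rw [hxl, filter_filter]
        congr 1
        ext y
        simp only [mem_filter]
        constructor
        · rintro ⟨h1, h2, h3⟩
          exact ⟨h1, h3⟩
        · rintro ⟨h1, h3⟩
          exact ⟨h1, by omega, h3⟩
      have a7 : (((C.M z).filter fun y => l + C.p < C.lab y).filter fun y => C.lab y ≤ l + 2 * C.p - D).card + miss =
          (C.win (l + C.p) (l + 2 * C.p - D)).card := by
        rw [hmiss, ← card_filter_add_card_filter_not (s := C.win (l + C.p) (l + 2 * C.p - D)) (fun y => C.A y z)]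
        congr 2
        ext y
        simp only [mem_filter, C.memM, C.memwin]
        tauto
      have a8 := C.inn z
      omega
    -- the ball of `z` in `G_(l+2p-D)`
    obtain ⟨Q, hQ⟩ : ∃ Q : X → Prop, Q = fun y => C.lab y ≤ l + 2 * C.p - D := ⟨_, rfl⟩
    obtain ⟨F, hF⟩ : ∃ F : Finset X, F = (C.win (l + 2 * C.p - D - (C.H + 4) * C.p) (l + 2 * C.p - D)).filter
        fun y => ∃ i ≤ C.m / 8 - 2, C.Rw Q i z y := ⟨_, rfl⟩
    have hFm : ∀ y, y ∈ F ↔ y ∈ C.win (l + 2 * C.p - D - (C.H + 4) * C.p) (l + 2 * C.p - D) ∧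
        ∃ i ≤ C.m / 8 - 2, C.Rw Q i z y := by
      intro y
      rw [hF, mem_filter]
    have hFc : 1000000 * F.card ≤ C.m * C.u :=
      (Nat.mul_le_mul_left _ (card_le_card fun y hy => ((hFm y).1 hy).1)).trans (s1 _)
    have hFr : ∀ i ≤ C.m / 8 - 2, ∀ y, C.Rw Q i z y → y ∈ F := by
      intro i hi y hy
      rw [hFm]
      refine ⟨?_, i, hi, hy⟩
      have h1 := C.drop i z y (b10' Q i z y hy) (by omega)
      have h2 : C.lab y ≤ l + 2 * C.p - D := by
        cases i with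
        | zero =>
          have : z = y := hy
          rw [← this]
          omega
        | succ i =>
          obtain ⟨t, -, -, h3⟩ := hy
          rw [hQ] at h3
          exact h3
      rw [C.memwin]
      refine ⟨?_, h2⟩
      have h5 : ((C.H : ℤ) + 4) * C.p = C.H * C.p + 4 * C.p := by ring
      rw [h5]
      omega
    have hK1 := hK X C hS' (l + 2 * C.p - D) z F (by omega) (by omega) (by rw [hQ] at hFr; exact hFr)
    rw [← hxl] at hK1
    have hgro := b13 (l + 2 * C.p - D) z (C.m / 8 - 2) F (by omega) (by omega) (by rw [hQ] at hFr; exact hFr)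
    obtain ⟨d2, hd2⟩ : ∃ k, k = C.d (l + 2 * C.p - D) := ⟨_, rfl⟩
    obtain ⟨Y, hY⟩ : ∃ k, k = C.XX (l + 2 * C.p - D) - C.u := ⟨_, rfl⟩
    have hs2' := s2 (l + 2 * C.p - D)
    rw [← hd2] at hgro hs2'
    rw [← hY] at hK1
    rw [← hd2, ← hY]
    refine ⟨hmiss1, hR4, ?_⟩
    by_cases hcr : ∃ w ∈ F, C.lab w ≤ l + C.p
    · -- (CR)
      obtain ⟨w, hwF, hwl⟩ := hcr
      obtain ⟨-, i, hi, hw⟩ := (hFm w).1 hwF
      have h1 := hcross (l + C.p) z w i hi (b10' Q i z w hw) (by omega) hwl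
      have h2 : ((C.win (l + C.p) (l + C.p + C.p)).filter fun y => ¬ C.A y z) ⊆
          ((C.win (l + C.p) (l + 2 * C.p - D)).filter fun y => ¬ C.A y z) ∪
          C.win (l + 2 * C.p - D) (l + 2 * C.p) := by
        intro y hy
        rw [mem_filter, C.memwin] at hy
        rw [mem_union, mem_filter, C.memwin, C.memwin]
        by_cases h3 : C.lab y ≤ l + 2 * C.p - D
        · exact Or.inl ⟨⟨hy.1.1, h3⟩, hy.2⟩
        · exact Or.inr ⟨by omega, by omega⟩
      have h3 := (card_le_card h2).trans (card_union_le _ _)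
      rw [← hmiss, ← hrho] at h3
      have h4 : 3 * C.u ≤ 4 * (miss + rho) := by omega
      refine ⟨by omega, ?_⟩
      -- `10^6 m x ≤ 10 m u + 4 10^8 m Y`
      have h5 : C.m * (1000000 * xl) ≤ C.m * (10 * C.u + 400000000 * Y) := by
        calc C.m * (1000000 * xl) = 1000000 * (C.m * xl) := by ring
          _ ≤ 1000000 * (10 * F.card + 400 * (C.m * Y)) := Nat.mul_le_mul_left _ hK1
          _ = 10 * (1000000 * F.card) + 400000000 * (C.m * Y) := by ring
          _ ≤ 10 * (C.m * C.u) + 400000000 * (C.m * Y) := by omega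
          _ = C.m * (10 * C.u + 400000000 * Y) := by ring
      have h6 := Nat.le_of_mul_le_mul_left h5 (by omega)
      omega
    · -- (NC)
      push Not at hcr
      have hFm' : F.card ≤ miss := by
        rw [hmiss]
        refine card_le_card fun y hy => ?_
        have h1 := (hFm y).1 hy
        rw [mem_filter, C.memwin]
        rw [C.memwin] at h1
        refine ⟨⟨hcr y hy, h1.1.2⟩, fun hyz => ?_⟩
        obtain ⟨-, i, hi, hw⟩ := h1
        exact C.cl (i + 1) (by omega) (by omega) z ((b10' Q i z y hw).snoc hyz)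
      constructor
      · have h1 : (C.m / 8 - 2) * d2 = (C.m / 8 - 2 - 45) * d2 + 45 * d2 := by
          rw [← Nat.add_mul]
          congr 1
          omega
        have h2 : 20000 * d2 ≤ (C.m / 8 - 2 - 45) * d2 := Nat.mul_le_mul_right _ (by omega)
        omega
      · have h5 : C.m * (10000 * xl) ≤ C.m * (miss + 4000000 * Y) := by
          calc C.m * (10000 * xl) = 10000 * (C.m * xl) := by ring
            _ ≤ 10000 * (10 * F.card + 400 * (C.m * Y)) := Nat.mul_le_mul_left _ hK1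
            _ = 100000 * F.card + 4000000 * (C.m * Y) := by ring
            _ ≤ C.m * miss + 4000000 * (C.m * Y) :=
              Nat.add_le_add_right (Nat.mul_le_mul (by omega) hFm') _
            _ = C.m * (miss + 4000000 * Y) := by ring
        have h6 := Nat.le_of_mul_le_mul_left h5 (by omega)
        omega

end Pool.Agent.Lib.MP_83608f_co.AV.SH
end
end

section
/-!
# MP_83608f_co, part AV, SHORT route, module SEC4 (helper83): `2 Δ ≥ p` is impossible
-/
set_option autoImplicit false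

open Classical Finset

noncomputable section

namespace Pool.Agent.Lib.MP_83608f_co.AV.SH

open Pool.Agent.Lib.MP_83608f_co.CN (NoCl)
open Pool.Agent.Lib.MP_83608f_co.EM (Wk)

namespace SEC4_

variable {X : Type} (C : Cv X)

/-- a label at which all four windows are controlled -/
theorem choose_l (hB : SpecBAS) (hS : C.Small) :
    ∃ l : ℤ, 100000 * ((C.win (l + 2 * C.p) (l + 2 * C.p + (C.p / 2 : ℕ))).card : ℤ) +
      10 * (100000 * (C.XX l : ℤ) - 100000 * C.u + C.u) +
      10 * (100000 * (C.XX (l + C.p) : ℤ) - 100000 * C.u + C.u) +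
      400 * (100000 * (C.XX (l + 2 * C.p + (C.p / 2 : ℕ)) : ℤ) - 100000 * C.u + C.u) ≤ 51000 * C.u := by
  obtain ⟨_, _, _, _, _, _, _, b8, _, _, _, _, b11, _, _, _, _, _⟩ := hB X C
  obtain ⟨ph, hph⟩ : ∃ ph : ℕ, ph = C.p / 2 := ⟨_, rfl⟩
  rw [← hph]
  have hph2 : 2 * ph ≤ C.p := by omega
  have s1 := b8 (2 * C.p) ph
  have s2 := b8 0 C.p
  have s3 := b8 C.p C.p
  have s4 := b8 (2 * C.p + ph) C.p
  have hne : (Ico (0 : ℤ) C.q).Nonempty := by
    refine ⟨0, ?_⟩
    rw [mem_Ico]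
    have := C.hq
    constructor
    · exact le_rfl
    · exact_mod_cast this
  have hcard : (Ico (0 : ℤ) C.q).card = C.q := by simp
  have hsum : ∑ l ∈ Ico (0 : ℤ) C.q, (100000 * ((C.win (l + 2 * C.p) (l + 2 * C.p + ph)).card : ℤ) +
      10 * (100000 * (C.XX l : ℤ) - 100000 * C.u + C.u) +
      10 * (100000 * (C.XX (l + C.p) : ℤ) - 100000 * C.u + C.u) +
      400 * (100000 * (C.XX (l + 2 * C.p + ph) : ℤ) - 100000 * C.u + C.u)) ≤
      ∑ l ∈ Ico (0 : ℤ) C.q, (51000 * C.u : ℤ) := by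
    have e1 : ∑ l ∈ Ico (0 : ℤ) C.q, ((C.win (l + 2 * C.p) (l + 2 * C.p + ph)).card : ℤ) = ph * C.n := by
      exact_mod_cast s1
    have e2 : ∑ l ∈ Ico (0 : ℤ) C.q, (C.XX l : ℤ) = C.p * C.n := by
      simp only [add_zero] at s2
      exact_mod_cast s2
    have e3 : ∑ l ∈ Ico (0 : ℤ) C.q, (C.XX (l + C.p) : ℤ) = C.p * C.n := by
      exact_mod_cast s3
    have e4 : ∑ l ∈ Ico (0 : ℤ) C.q, (C.XX (l + 2 * C.p + ph) : ℤ) = C.p * C.n := by
      have h : ∀ l ∈ Ico (0 : ℤ) C.q, (C.XX (l + 2 * C.p + ph) : ℤ) =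
          ((C.win (l + (2 * C.p + ph)) (l + (2 * C.p + ph) + C.p)).card : ℤ) := by
        intro l _
        unfold Cv.XX
        rw [add_assoc l]
      rw [sum_congr rfl h]
      exact_mod_cast s4
    simp only [sum_add_distrib, ← mul_sum, sum_sub_distrib, sum_const, hcard, e1, e2, e3, e4]
    simp only [nsmul_eq_mul]
    have k1 : (C.p * C.n : ℤ) ≤ C.p * (C.m * C.u) := by
      exact_mod_cast Nat.mul_le_mul_left C.p b11
    have k2 : (2 * (ph * C.n) : ℤ) ≤ C.p * (C.m * C.u) := by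
      have h1 : (2 * ph) * C.n ≤ C.p * (C.m * C.u) := Nat.mul_le_mul hph2 b11
      have h2 : 2 * (ph * C.n) ≤ C.p * (C.m * C.u) := by rw [← mul_assoc]; exact h1
      exact_mod_cast h2
    have k3 : (28000000 * (C.p * (C.m * C.u)) : ℤ) ≤ 28000000 * (C.q * C.u) + C.p * (C.m * C.u) := by
      have h1 : C.p * C.m * C.u ≤ (C.q + C.p * C.H) * C.u := Nat.mul_le_mul_right _ C.speed
      have h2 : C.p * (28000000 * C.H) * C.u ≤ C.p * C.m * C.u :=
        Nat.mul_le_mul_right _ (Nat.mul_le_mul_left _ C.big)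
      have h1' : (C.p * C.m * C.u : ℤ) ≤ (C.q + C.p * C.H) * C.u := by exact_mod_cast h1
      have h2' : (C.p * (28000000 * C.H) * C.u : ℤ) ≤ C.p * C.m * C.u := by exact_mod_cast h2
      nlinarith [h1', h2']
    have k4 : (0 : ℤ) ≤ C.q * C.u := by positivity
    nlinarith [k1, k2, k3, k4]
  obtain ⟨l, _, hl⟩ := exists_le_of_sum_le hne hsum
  exact ⟨l, hl⟩

/-- the vertex `w`: an out-neighbour of `y` in the window `(l, l + p]` with few out-neighbours in `G_(l+p)` -/
theorem exists_w (hS : C.Small) (l : ℤ) (y : X) (hy : 100000 * C.dg l y ≤ C.u)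
    (hk : 1000 * ((C.win l (l + C.p)) \ C.N y).card ≤ 52 * C.u) (hyl : C.lab y ≤ l) :
    ∃ w, C.A y w ∧ l < C.lab w ∧ C.lab w ≤ l + C.p ∧
      50 * C.dg (l + C.p) w ≤ 50 * ((C.win l (l + C.p)) \ C.N y).card + C.u := by
  by_contra hcon
  push_neg at hcon
  have hu : 1 ≤ C.u := C.hv.trans C.hvu
  obtain ⟨k, hkdef⟩ : ∃ k, k = ((C.win l (l + C.p)) \ C.N y).card := ⟨_, rfl⟩
  rw [← hkdef] at hk hcon
  -- a vertex x0
  obtain ⟨x0, hx0⟩ : ∃ x0 ∈ C.N y, l < C.lab x0 := by
    by_contra h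
    push_neg at h
    have h1 : (C.N y).filter (fun y => C.lab y ≤ l) = C.N y := filter_true_of_mem h
    have h2 := C.out y
    unfold Cv.dg at hy
    rw [h1] at hy
    omega
  obtain ⟨hx0N, hx0l⟩ := hx0
  have hyx0 : C.A y x0 := (C.memN _ _).1 hx0N
  have hx0p : C.lab x0 ≤ l + C.p := by
    have := C.up _ _ hyx0
    omega
  obtain ⟨W, hW⟩ : ∃ W, W = C.win (l + C.p - (C.H + 4) * C.p) (l + C.p) := ⟨_, rfl⟩
  obtain ⟨Q, hQ⟩ : ∃ Q, Q = W \ ((C.win l (l + C.p)) \ C.N y) := ⟨_, rfl⟩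
  have hp1 := C.hp
  have hHp : (C.H : ℤ) * C.p + 4 * C.p = (C.H + 4) * C.p := by ring
  have hp0 : (0 : ℤ) < C.p := by exact_mod_cast hp1
  have hHp0 : (0 : ℤ) ≤ (C.H : ℤ) * C.p := by positivity
  have hx0Q : x0 ∈ Q := by
    rw [hQ, hW, mem_sdiff, mem_sdiff]
    refine ⟨?_, fun h => h.2 hx0N⟩
    rw [C.memwin]
    constructor
    · rw [← hHp]
      linarith
    · exact hx0p
  have hbig := C.big
  have hH := C.hH
  obtain ⟨h, hh⟩ : ∃ h, h = C.m / 8 - 2 := ⟨_, rfl⟩
  obtain ⟨r, hr⟩ : ∃ r, r = C.u / 50 + 1 := ⟨_, rfl⟩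
  have hr50 : C.u < 50 * r := by omega
  have hgr := GRW_.growth (R := C.A) (m := C.m) (r := r) C.cl Q x0 hx0Q h (by omega)
    (fun i z => Wk (⟨C.A⟩ : Digraph X) i x0 z) rfl
    (by
      intro i hi z hz hiz
      have hzl : C.lab z ≤ l + C.p := by
        rw [hQ, hW, mem_sdiff, C.memwin] at hz
        exact hz.1.2
      -- many out-neighbours in `G_(l + p)`
      have hdg : 50 * k + C.u < 50 * C.dg (l + C.p) z := by
        rcases le_or_gt (C.lab z) l with h1 | h1
        · have h2 : (C.N z).filter (fun y => C.lab y ≤ l + C.p) = C.N z := by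
            refine filter_true_of_mem fun b hb => ?_
            have := C.up _ _ ((C.memN _ _).1 hb)
            linarith
          have h3 := C.out z
          unfold Cv.dg
          rw [h2]
          omega
        · have h2 : z ∈ C.N y := by
            by_contra h3
            rw [hQ, mem_sdiff, mem_sdiff, C.memwin] at hz
            exact hz.2 ⟨⟨h1, hzl⟩, h3⟩
          exact hcon z ((C.memN _ _).1 h2) h1 hzl
      have hsub : (C.N z).filter (fun y => C.lab y ≤ l + C.p) ⊆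
          (Q.filter fun b => C.A z b) ∪ ((C.win l (l + C.p)) \ C.N y) := by
        intro b hb
        rw [mem_filter] at hb
        have hzb := (C.memN _ _).1 hb.1
        by_cases hbP : b ∈ (C.win l (l + C.p)) \ C.N y
        · exact mem_union_right _ hbP
        · refine mem_union_left _ ?_
          rw [mem_filter, hQ, mem_sdiff]
          refine ⟨⟨?_, hbP⟩, hzb⟩
          rw [hW, C.memwin]
          refine ⟨?_, hb.2⟩
          have h1 := C.drop (i + 1) x0 b (EM.Wk.snoc hiz hzb) (by omega)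
          rw [← hHp]
          linarith
      have h1 := (card_le_card hsub).trans (card_union_le _ _)
      unfold Cv.dg at hdg
      rw [← hkdef] at h1
      omega)
    (fun i _ z _ hz b _ hzb => EM.Wk.snoc hz hzb) Q (fun i _ z hz _ => hz)
  have hQW : Q.card ≤ W.card := by
    rw [hQ]
    exact card_le_card sdiff_subset
  have hWc : 1000000 * W.card ≤ C.m * C.u := by
    rw [hW]
    exact hS.1 (l + C.p)
  have h45 : (h - 45) * r + 45 * r ≤ Q.card + 45 * r := by
    rw [← Nat.add_mul]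
    have : h - 45 + 45 = h := by omega
    rw [this]
    exact hgr
  have h6 : 1000000 * ((h - 45) * r) ≤ 50 * (C.m * r) := by
    calc 1000000 * ((h - 45) * r) ≤ 1000000 * W.card := by omega
      _ ≤ C.m * C.u := hWc
      _ ≤ C.m * (50 * r) := Nat.mul_le_mul_left _ hr50.le
      _ = 50 * (C.m * r) := by ring
  have h7 : 1000000 * (h - 45) ≤ 50 * C.m := by
    have h8 : (1000000 * (h - 45)) * r ≤ (50 * C.m) * r := by
      calc (1000000 * (h - 45)) * r = 1000000 * ((h - 45) * r) := by ring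
        _ ≤ 50 * (C.m * r) := h6
        _ = (50 * C.m) * r := by ring
    exact Nat.le_of_mul_le_mul_right h8 (by omega)
  omega

end SEC4_

open SEC4_ in
theorem specSEC4 (hB : SpecBAS) (hK : SpecLMK) : SpecSEC4 := by
  intro X C hS hq hq2
  obtain ⟨b1, b2, b3, _, _, _, _, _, _, b10, _, b12, b13, b14, _, _, _, _⟩ := hB X C
  obtain ⟨l, hl⟩ := choose_l C hB hS
  obtain ⟨ph, hph⟩ : ∃ ph : ℕ, ph = C.p / 2 := ⟨_, rfl⟩
  rw [← hph] at hl
  have hu : 1 ≤ C.u := C.hv.trans C.hvu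
  have hbig := C.big
  have hH := C.hH
  have hp1 := C.hp
  -- the four quantities
  have hd : ∀ l, 100000 * C.d l ≤ C.u := hS.2.1
  have he : ∀ l, (0 : ℤ) ≤ 100000 * (C.XX l : ℤ) - 100000 * C.u + C.u := by
    intro l
    have h1 := b3 l
    have h2 := hd l
    push_cast
    omega
  have he0 := he l
  have he1 := he (l + C.p)
  have he3 := he (l + 2 * C.p + ph)
  -- the vertex y
  obtain ⟨y, hyl, hyd⟩ := b2 l
  have hdl := hd l
  have hyN : ∀ b ∈ C.N y, C.lab b ≤ l + C.p := by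
    intro b hb
    have := C.up _ _ ((C.memN _ _).1 hb)
    linarith
  have hyl2 : l - C.p < C.lab y := by
    by_contra h
    push_neg at h
    have h1 : (C.N y).filter (fun y => C.lab y ≤ l) = C.N y := by
      refine filter_true_of_mem fun b hb => ?_
      have := C.up _ _ ((C.memN _ _).1 hb)
      linarith
    have h2 := C.out y
    unfold Cv.dg at hyd
    rw [h1] at hyd
    omega
  -- the size of `P \ N y`
  have hcov : ∀ (l' : ℤ) (z : X), C.lab z ≤ l' →
      C.u + ((C.win l' (l' + C.p)) \ C.N z).card ≤ C.XX l' + C.dg l' z := by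
    intro l' z hz
    have h1 : ((C.N z).filter fun b => ¬ C.lab b ≤ l') ⊆ C.win l' (l' + C.p) ∩ C.N z := by
      intro b hb
      rw [mem_filter] at hb
      have := C.up _ _ ((C.memN _ _).1 hb.1)
      rw [mem_inter, C.memwin]
      exact ⟨⟨by omega, by linarith⟩, hb.1⟩
    have h2 := card_le_card h1
    have h3 := card_filter_add_card_filter_not (s := C.N z) (fun b => C.lab b ≤ l')
    have h4 := C.out z
    have h5 := card_sdiff_add_card_inter (C.win l' (l' + C.p)) (C.N z)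
    unfold Cv.XX Cv.dg
    omega
  have hk := hcov l y hyl
  obtain ⟨k, hkdef⟩ : ∃ k, k = ((C.win l (l + C.p)) \ C.N y).card := ⟨_, rfl⟩
  rw [← hkdef, hyd] at hk
  have hk1 : (100000 * k : ℤ) ≤ 100000 * (C.XX l : ℤ) - 100000 * C.u + C.u := by
    have h1 : ((C.u + k : ℕ) : ℤ) ≤ ((C.XX l + C.d l : ℕ) : ℤ) := by exact_mod_cast hk
    have h2 : ((100000 * C.d l : ℕ) : ℤ) ≤ C.u := by exact_mod_cast hdl
    push_cast at h1 h2
    linarith
  have hg0 : (0 : ℤ) ≤ ((C.win (l + 2 * C.p) (l + 2 * C.p + ph)).card : ℤ) := by positivity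
  have hk2 : 1000 * k ≤ 52 * C.u := by
    have : (1000 * k : ℤ) ≤ 52 * C.u := by linarith
    exact_mod_cast this
  obtain ⟨w, hyw, hwl, hwl', hw⟩ := exists_w C hS l y (by rw [hyd]; exact hdl) (by rw [← hkdef]; exact hk2) hyl
  rw [← hkdef] at hw
  have hk3 := hcov (l + C.p) w hwl'
  -- the ancestor z
  have hsp : (C.p * C.m : ℤ) ≤ C.q + C.p * C.H := by exact_mod_cast C.speed
  have hpH : (28000000 * (C.p * C.H) : ℤ) ≤ C.p * C.m := by
    have : C.p * (28000000 * C.H) ≤ C.p * C.m := Nat.mul_le_mul_left _ C.big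
    have h2 : (C.p * (28000000 * C.H) : ℤ) ≤ C.p * C.m := by exact_mod_cast this
    linarith
  have hp0 : (1 : ℤ) ≤ C.p := by exact_mod_cast hp1
  have hpH0 : (10 * C.p : ℤ) ≤ C.p * C.H := by
    have : C.p * 10 ≤ C.p * C.H := Nat.mul_le_mul_left _ C.hH
    have h2 : (C.p * 10 : ℤ) ≤ C.p * C.H := by exact_mod_cast this
    linarith
  have hqp : (2 * C.p : ℤ) ≤ C.q := by linarith
  have hq2' : (2 * C.q + C.p : ℤ) ≤ 2 * (C.p * C.m) := by exact_mod_cast hq2
  obtain ⟨s, hs3, z, hz, hzl1, hzl2⟩ : ∃ s : ℕ, s + 3 ≤ C.m ∧ ∃ z, Wk (⟨C.A⟩ : Digraph X) s z (C.T y) ∧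
      l + C.p < C.lab z ∧ C.lab z ≤ l + 2 * C.p + ph := by
    rcases lt_or_ge (l + C.p) (C.lab y + C.q - C.p * (C.m - 3)) with h1 | h1
    · obtain ⟨z, hz, hzl⟩ := b10 (C.m - 3) (C.T y)
      rw [C.labT] at hzl
      have h3 : ((C.m - 3 : ℕ) : ℤ) = C.m - 3 := by
        rw [Nat.cast_sub (by omega)]
        rfl
      rw [h3] at hzl
      refine ⟨C.m - 3, by omega, z, hz, by linarith, ?_⟩
      have h4 : (C.p * (C.m - 3) : ℤ) = C.p * C.m - 3 * C.p := by ring
      have h5 : 2 * (C.lab z - l) ≤ 5 * C.p := by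
        rw [h4] at hzl
        linarith
      omega
    · obtain ⟨t, ht⟩ : ∃ t : ℤ, t = C.lab y + C.q - (l + C.p) - 1 := ⟨_, rfl⟩
      have ht0 : 0 ≤ t := by omega
      have hem := Int.mul_ediv_add_emod t C.p
      have hem1 := Int.emod_nonneg t (show (C.p : ℤ) ≠ 0 by omega)
      have hem2 := Int.emod_lt_of_pos t (show (0 : ℤ) < C.p by omega)
      have hs0 : 0 ≤ t / C.p := Int.ediv_nonneg ht0 (by omega)
      obtain ⟨s, hs⟩ : ∃ s : ℕ, (s : ℤ) = t / C.p := ⟨(t / C.p).toNat, Int.toNat_of_nonneg hs0⟩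
      rw [← hs] at hem
      obtain ⟨z, hz, hzl⟩ := b10 s (C.T y)
      rw [C.labT] at hzl
      refine ⟨s, ?_, z, hz, by linarith, by linarith⟩
      by_contra h2
      push_neg at h2
      have h3 : (C.m : ℤ) - 3 < s := by omega
      have h4 : (C.p : ℤ) * (C.m - 3) < C.p * s := by
        exact mul_lt_mul_of_pos_left h3 (by omega)
      linarith
  -- the in-neighbours of z
  have hMsub : C.M z ⊆ (((C.win l (l + C.p)) \ C.N y) ∪ ((C.win (l + C.p) (l + C.p + C.p)) \ C.N w)) ∪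
      (C.win (l + 2 * C.p) (l + 2 * C.p + ph) ∪ (C.M z).filter fun b => l + 2 * C.p + ph < C.lab b) := by
    intro b hb
    have hbz := (C.memM _ _).1 hb
    have hb1 := C.up _ _ hbz
    have hbN : b ∉ C.N y := by
      intro h
      have h1 := (C.memN _ _).1 h
      exact C.clT (s + 1 + 1) y (by omega) (by omega) (EM.Wk.cons h1 (EM.Wk.cons hbz hz))
    have hbw : b ∉ C.N w := by
      intro h
      have h1 := (C.memN _ _).1 h
      exact C.clT (s + 1 + 1 + 1) y (by omega) (by omega) (EM.Wk.cons hyw (EM.Wk.cons h1 (EM.Wk.cons hbz hz)))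
    rcases le_or_gt (C.lab b) (l + C.p) with h1 | h1
    · refine mem_union_left _ (mem_union_left _ ?_)
      rw [mem_sdiff, C.memwin]
      exact ⟨⟨by linarith, h1⟩, hbN⟩
    rcases le_or_gt (C.lab b) (l + C.p + C.p) with h2 | h2
    · refine mem_union_left _ (mem_union_right _ ?_)
      rw [mem_sdiff, C.memwin]
      exact ⟨⟨h1, h2⟩, hbw⟩
    rcases le_or_gt (C.lab b) (l + 2 * C.p + ph) with h3 | h3
    · refine mem_union_right _ (mem_union_left _ ?_)
      rw [C.memwin]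
      exact ⟨by linarith, h3⟩
    · refine mem_union_right _ (mem_union_right _ ?_)
      rw [mem_filter]
      exact ⟨hb, h3⟩
  have hMc := (card_le_card hMsub).trans ((card_union_le _ _).trans (Nat.add_le_add (card_union_le _ _) (card_union_le _ _)))
  rw [← hkdef] at hMc
  -- Lemma K
  have hKK := hK X C hS (l + 2 * C.p + ph) z
    (C.win (l + 2 * C.p + ph - (C.H + 4) * C.p) (l + 2 * C.p + ph)) hzl2 (by omega)
    (by
      intro i hi b hb
      have hw1 := b12 _ _ _ _ hb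
      have hbl : C.lab b ≤ l + 2 * C.p + ph := by
        cases i with
        | zero =>
          have : z = b := hb
          rw [← this]
          exact hzl2
        | succ i =>
          obtain ⟨_, _, _, h⟩ := hb
          exact h
      rw [C.memwin]
      refine ⟨?_, hbl⟩
      have h1 := C.drop i z b hw1 (by omega)
      have h2 : (C.H : ℤ) * C.p + 4 * C.p = (C.H + 4) * C.p := by ring
      have h3 : (ph : ℤ) ≤ C.p := by omega
      rw [← h2]
      linarith)
  have hW := hS.1 (l + 2 * C.p + ph)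
  obtain ⟨Z, hZ⟩ : ∃ Z, Z = ((C.M z).filter fun b => l + 2 * C.p + ph < C.lab b).card := ⟨_, rfl⟩
  obtain ⟨F, hF⟩ : ∃ F, F = (C.win (l + 2 * C.p + ph - (C.H + 4) * C.p) (l + 2 * C.p + ph)).card := ⟨_, rfl⟩
  rw [← hZ] at hKK hMc
  rw [← hF] at hKK hW
  -- the number `(XX - u)^+`
  have hZ5 : (100000 * Z : ℤ) ≤ C.u + 400 * (100000 * (C.XX (l + 2 * C.p + ph) : ℤ) - 100000 * C.u + C.u) := by
    have hm0 : (0 : ℤ) < C.m := by
      have : 0 < C.m := by omega
      exact_mod_cast this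
    obtain ⟨x, hx⟩ : ∃ x : ℕ, x = C.XX (l + 2 * C.p + ph) - C.u := ⟨_, rfl⟩
    rw [← hx] at hKK
    have hx1 : (100000 * x : ℤ) ≤ 100000 * (C.XX (l + 2 * C.p + ph) : ℤ) - 100000 * C.u + C.u := by
      rcases Nat.le_total (C.XX (l + 2 * C.p + ph)) C.u with h1 | h1
      · have h2 : x = 0 := by omega
        rw [h2]
        simpa using he3
      · have h2 : (x : ℤ) = (C.XX (l + 2 * C.p + ph) : ℤ) - C.u := by
          rw [hx, Nat.cast_sub h1]
        rw [h2]
        have : (0 : ℤ) ≤ C.u := by positivity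
        linarith
    have h1 : (C.m * Z : ℤ) ≤ 10 * F + 400 * (C.m * x) := by exact_mod_cast hKK
    have h2 : (1000000 * F : ℤ) ≤ C.m * C.u := by exact_mod_cast hW
    have h3 : (C.m : ℤ) * (100000 * Z) ≤ C.m * (C.u + 400 * (100000 * x)) := by linarith
    have h4 := le_of_mul_le_mul_left h3 hm0
    linarith
  -- conclusion
  have hv := C.inn z
  have hend : (100000 * C.v : ℤ) ≤ 60000 * C.u := by
    have h1 : (C.v : ℤ) ≤ (k + ((C.win (l + C.p) (l + C.p + C.p)) \ C.N w).card) +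
        ((C.win (l + 2 * C.p) (l + 2 * C.p + ph)).card + Z) := by exact_mod_cast hv.trans hMc
    have h2 : (C.u : ℤ) + ((C.win (l + C.p) (l + C.p + C.p)) \ C.N w).card ≤ C.XX (l + C.p) + C.dg (l + C.p) w := by
      exact_mod_cast hk3
    have h3 : (50 * C.dg (l + C.p) w : ℤ) ≤ 50 * k + C.u := by exact_mod_cast hw
    linarith
  have h14 : (C.m * C.u : ℤ) ≤ C.m * C.v + 90 * C.u := by exact_mod_cast b14
  have hm1 : (280000000 : ℤ) ≤ C.m := by
    have : 280000000 ≤ C.m := by omega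
    exact_mod_cast this
  have hu1 : (1 : ℤ) ≤ C.u := by exact_mod_cast hu
  have hv1 : (C.m : ℤ) * (100000 * C.v) ≤ C.m * (60000 * C.u) := mul_le_mul_of_nonneg_left hend (by linarith)
  have hmu : (280000000 : ℤ) * C.u ≤ C.m * C.u := mul_le_mul_of_nonneg_right hm1 (by linarith)
  linarith

end Pool.Agent.Lib.MP_83608f_co.AV.SH
end
end
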