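import Mathlib
import Pool.Agent.Lib.MP_83608f_co.AV.SH.Spec

section
/-!
# MP_83608f_co, part AV/SH, the final sum of section 5 of MP_83608f_h32_SHORT.md (helper16)

Pure arithmetic: `q = p m - Δ`; `d`, `P` have the period `q`; `T1` = the labels of type 1.
-/
set_option autoImplicit false

open Classical Finset

namespace Pool.Agent.Lib.MP_83608f_co.AV.SH.S5S_

/-- a sum over a period does not change under a shift -/
lemma shift1 (q : ℕ) (f : ℤ → ℤ) (hf : ∀ l, f (l + q) = f l) :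
    ∑ l ∈ Ico (0 : ℤ) q, f (l + 1) = ∑ l ∈ Ico (0 : ℤ) q, f l := by
  have h1 : ∑ l ∈ Ico (0 : ℤ) q, f (l + 1) = ∑ l ∈ Ico (1 : ℤ) (q + 1), f l := by
    apply sum_nbij (fun l => l + 1)
    · intro l hl
      rw [mem_Ico] at hl ⊢
      omega
    · intro a _ b _ h
      simpa using h
    · intro l hl
      rw [mem_coe, mem_Ico] at hl
      exact ⟨l - 1, by rw [mem_coe, mem_Ico]; omega, by simp⟩
    · intro l _
      rfl
  rw [h1]
  rcases Nat.eq_zero_or_pos q with h0 | h0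
  · subst h0
    simp
  · have h2 : Ico (0 : ℤ) q = insert 0 (Ico (1 : ℤ) q) := by
      ext l
      simp only [mem_Ico, mem_insert]
      omega
    have h3 : Ico (1 : ℤ) (q + 1) = insert (q : ℤ) (Ico (1 : ℤ) q) := by
      ext l
      simp only [mem_Ico, mem_insert]
      omega
    rw [h2, h3, sum_insert (by simp), sum_insert (by simp)]
    have := hf 0
    rw [zero_add] at this
    rw [this]

lemma shift (q : ℕ) (f : ℤ → ℤ) (hf : ∀ l, f (l + q) = f l) (c : ℤ) :
    ∑ l ∈ Ico (0 : ℤ) q, f (l + c) = ∑ l ∈ Ico (0 : ℤ) q, f l := by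
  induction c using Int.induction_on with
  | zero => simp
  | succ i ih =>
    have := shift1 q (fun l => f (l + i)) (fun l => by
      rw [show l + (q : ℤ) + i = l + i + q by ring, hf])
    rw [← ih, ← this]
    exact sum_congr rfl fun l _ => by rw [show l + ((i : ℤ) + 1) = l + 1 + i by ring]
  | pred i ih =>
    have := shift1 q (fun l => f (l + (-(i : ℤ) - 1))) (fun l => by
      rw [show l + (q : ℤ) + (-(i : ℤ) - 1) = l + (-(i : ℤ) - 1) + q by ring, hf])
    rw [← this, ← ih]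
    exact sum_congr rfl fun l _ => by rw [show l + 1 + (-(i : ℤ) - 1) = l + -(i : ℤ) by ring]

/-- **the final sum.** -/
theorem final {p q Δ m n u v N C : ℕ} {d P miss rho x : ℤ → ℤ} {T : ℤ → Prop}
    (hq : 1 ≤ q) (hu : 1 ≤ u) (huv : v ≤ u) (hqm : q + Δ = p * m) (hn : 2 * n ≤ m * (u + v)) (hnu : m * u ≤ 2 * n)
    (hdp : ∀ l, d (l + q) = d l) (hPp : ∀ l, P (l + q) = P l)
    (hd0 : ∀ l, 0 ≤ d l) (hr0 : ∀ l, 0 ≤ rho l)
    (hP : ∑ l ∈ Ico (0 : ℤ) q, P l = p * n) (hrho : ∑ l ∈ Ico (0 : ℤ) q, rho l = Δ * n)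
    (hpd : ∀ l, u - P l ≤ d l) (hW : ∀ l, N * d l ≤ u)
    (h1m : ∀ l, T l → 1 ≤ miss l)
    (hR4 : ∀ l, T l → miss l + rho l + u + v ≤ d l + x l + P l + P (l + p))
    (hK1 : ∀ l, T l → N * d (l + 2 * p - Δ) ≤ miss l + rho l)
    (hK2 : ∀ l, T l → N * x l ≤ miss l + rho l + N * C * max 0 (P (l + 2 * p - Δ) - u))
    (h2r : ∀ l, ¬ T l → rho l + 2 * u ≤ d l + d (l + p - Δ) + P l + P (l + p))
    (h2c : (u : ℤ) * ((Ico (0 : ℤ) q).filter fun l => ¬ T l).card ≤ 2 * (Δ * n))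
    (hN : 13 + 6 * C ≤ N) (hm : 4 * (4 + 2 * C) ≤ m) : False := by
  set I := Ico (0 : ℤ) q with hI
  set T1 := I.filter T with hT1
  set T2 := I.filter fun l => ¬ T l with hT2
  have split : ∀ f : ℤ → ℤ, ∑ l ∈ I, f l = ∑ l ∈ T1, f l + ∑ l ∈ T2, f l := fun f =>
    (sum_filter_add_sum_filter_not I T f).symm
  -- the main quantity
  set X : ℤ := ∑ l ∈ T1, (miss l + rho l) + ∑ l ∈ T2, rho l with hX
  have hmiss : (T1.card : ℤ) ≤ ∑ l ∈ T1, miss l := by
    have h := card_nsmul_le_sum T1 miss 1 (fun l hl => h1m l (mem_filter.1 hl).2)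
    simpa using h
  have hXr : X = ∑ l ∈ T1, miss l + Δ * n := by
    rw [hX, sum_add_distrib, ← hrho, split rho]
    ring
  have hX0 : (Δ * n : ℤ) ≤ X := by
    rw [hXr]
    have : (0 : ℤ) ≤ T1.card := by positivity
    linarith
  have hcard : (I.card : ℤ) = T1.card + T2.card := by
    have := split fun _ => 1
    simpa using this
  have hIq : (I.card : ℤ) = q := by
    rw [hI, Int.card_Ico]
    simp
  have hX1 : 1 ≤ X := by
    by_contra hlt
    have h0 : (0 : ℤ) ≤ T1.card := by positivity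
    have h0' : (0 : ℤ) ≤ Δ * n := by positivity
    have h1 : (T1.card : ℤ) = 0 := by
      rw [hXr] at hlt
      omega
    have h2 : (Δ * n : ℤ) = 0 := by
      rw [hXr] at hlt
      omega
    rw [h2] at h2c
    have h3 : (1 : ℤ) ≤ T2.card := by
      have : (1 : ℤ) ≤ q := by exact_mod_cast hq
      omega
    have h4 : (1 : ℤ) ≤ u := by exact_mod_cast hu
    nlinarith
  -- (1)
  have e1 : ∑ l ∈ T1, (miss l + rho l) + T1.card * ((u : ℤ) + v) ≤
      ∑ l ∈ T1, (d l + P l + P (l + p)) + ∑ l ∈ T1, x l := by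
    rw [← sum_add_distrib, ← nsmul_eq_mul, ← sum_const, ← sum_add_distrib]
    exact sum_le_sum fun l hl => by linarith [hR4 l (mem_filter.1 hl).2]
  have e2 : ∑ l ∈ T2, rho l + T2.card * ((u : ℤ) + v) ≤
      ∑ l ∈ T2, (d l + P l + P (l + p)) + ∑ l ∈ T2, d (l + p - Δ) := by
    rw [← sum_add_distrib, ← nsmul_eq_mul, ← sum_const, ← sum_add_distrib]
    have huv' : (v : ℤ) ≤ u := by exact_mod_cast huv
    exact sum_le_sum fun l hl => by linarith [h2r l (mem_filter.1 hl).2]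
  have e3 : ∑ l ∈ I, P (l + p) = p * n := by
    rw [shift q P hPp p, hP]
  have e4 : X + q * ((u : ℤ) + v) ≤ ∑ l ∈ I, d l + 2 * (p * n) + ∑ l ∈ T1, x l + ∑ l ∈ T2, d (l + p - Δ) := by
    have h1 : ∑ l ∈ I, (d l + P l + P (l + p)) = ∑ l ∈ I, d l + 2 * (p * n) := by
      rw [sum_add_distrib, sum_add_distrib, hP, e3]
      ring
    rw [split] at h1
    have h2 : (q : ℤ) * ((u : ℤ) + v) = T1.card * ((u : ℤ) + v) + T2.card * ((u : ℤ) + v) := by
      rw [← hIq, hcard]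
      ring
    rw [h2]
    linarith
  have hqm' : (q : ℤ) + Δ = p * m := by exact_mod_cast hqm
  have hn' : (2 : ℤ) * n ≤ m * (u + v) := by exact_mod_cast hn
  have hp0 : (0 : ℤ) ≤ p := by positivity
  have e5 : 2 * ((p : ℤ) * n) ≤ (q + Δ) * (u + v) := by
    have := mul_le_mul_of_nonneg_left hn' hp0
    rw [hqm']
    linarith
  have f1 : X ≤ ∑ l ∈ I, d l + Δ * ((u : ℤ) + v) + ∑ l ∈ T1, x l + ∑ l ∈ T2, d (l + p - Δ) := by linarith
  -- (2)
  have e6 : ∑ l ∈ I, d (l + 2 * p - Δ) = ∑ l ∈ I, d l := by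
    rw [← shift q d hdp (2 * p - Δ)]
    exact sum_congr rfl fun l _ => by rw [show l + (2 * (p : ℤ) - Δ) = l + 2 * p - Δ by ring]
  have f2 : N * ∑ l ∈ I, d l ≤ X + 2 * (Δ * n) := by
    rw [← e6, split, mul_add, mul_sum, mul_sum]
    have h1 : ∑ l ∈ T1, (N : ℤ) * d (l + 2 * p - Δ) ≤ ∑ l ∈ T1, (miss l + rho l) :=
      sum_le_sum fun l hl => hK1 l (mem_filter.1 hl).2
    have h2 : ∑ l ∈ T2, (N : ℤ) * d (l + 2 * p - Δ) ≤ T2.card * (u : ℤ) := by
      rw [← nsmul_eq_mul, ← sum_const]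
      exact sum_le_sum fun l _ => hW _
    have h3 : (0 : ℤ) ≤ ∑ l ∈ T2, rho l := sum_nonneg fun l _ => hr0 l
    linarith
  have f3 : N * ∑ l ∈ T2, d (l + p - Δ) ≤ 2 * (Δ * n) := by
    rw [mul_sum]
    have h2 : ∑ l ∈ T2, (N : ℤ) * d (l + p - Δ) ≤ T2.card * (u : ℤ) := by
      rw [← nsmul_eq_mul, ← sum_const]
      exact sum_le_sum fun l _ => hW _
    linarith
  -- the positive parts
  have e7 : ∑ l ∈ I, max 0 (P (l + 2 * p - Δ) - u) = ∑ l ∈ I, max 0 (P l - u) := by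
    rw [← shift q (fun l => max 0 (P l - u)) (fun l => by simp only [hPp]) (2 * p - Δ)]
    exact sum_congr rfl fun l _ => by
      rw [show l + (2 * (p : ℤ) - Δ) = l + 2 * p - Δ by ring]
  have f5 : ∑ l ∈ I, max 0 (P l - u) ≤ Δ * u + ∑ l ∈ I, d l := by
    have h1 : ∑ l ∈ I, max 0 (P l - u) ≤ ∑ l ∈ I, (P l + d l) - q * (u : ℤ) := by
      rw [← hIq, ← nsmul_eq_mul, ← sum_const, ← sum_sub_distrib]
      refine sum_le_sum fun l _ => ?_
      have h2 := hpd l
      have h3 := hd0 l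
      rcases le_total (0 : ℤ) (P l - u) with h4 | h4
      · rw [max_eq_right h4]
        linarith
      · rw [max_eq_left h4]
        linarith
    rw [sum_add_distrib, hP] at h1
    have h2 : (p : ℤ) * n ≤ (q + Δ) * u := by
      have huv' : (v : ℤ) ≤ u := by exact_mod_cast huv
      have h3 : ((q : ℤ) + Δ) * (u + v) ≤ (q + Δ) * (u + u) := by
        apply mul_le_mul_of_nonneg_left _ (by positivity)
        linarith
      linarith
    linarith
  have f4 : N * ∑ l ∈ T1, x l ≤ X + N * C * (Δ * u + ∑ l ∈ I, d l) := by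
    rw [mul_sum]
    have h1 : ∑ l ∈ T1, (N : ℤ) * x l ≤
        ∑ l ∈ T1, (miss l + rho l) + N * C * ∑ l ∈ T1, max 0 (P (l + 2 * p - Δ) - u) := by
      rw [mul_sum, ← sum_add_distrib]
      exact sum_le_sum fun l hl => hK2 l (mem_filter.1 hl).2
    have h2 : ∑ l ∈ T1, max 0 (P (l + 2 * p - Δ) - u) ≤ ∑ l ∈ I, max 0 (P (l + 2 * p - Δ) - u) :=
      sum_le_sum_of_subset_of_nonneg (filter_subset _ _) fun l _ _ => le_max_left _ _
    have h3 : (0 : ℤ) ≤ ∑ l ∈ T2, rho l := sum_nonneg fun l _ => hr0 l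
    have h4 : (N * C : ℤ) * ∑ l ∈ T1, max 0 (P (l + 2 * p - Δ) - u) ≤ N * C * (Δ * u + ∑ l ∈ I, d l) := by
      apply mul_le_mul_of_nonneg_left _ (by positivity)
      rw [e7] at h2
      linarith
    linarith
  -- (6)
  have f6 : (m : ℤ) * (Δ * u) ≤ 2 * X := by
    have h1 : (m : ℤ) * u ≤ 2 * n := by exact_mod_cast hnu
    have h2 := mul_le_mul_of_nonneg_left h1 (by positivity : (0 : ℤ) ≤ Δ)
    linarith
  -- conclusion
  have hD : (0 : ℤ) ≤ Δ * u := by positivity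
  have hS : (0 : ℤ) ≤ ∑ l ∈ I, d l := sum_nonneg fun l _ => hd0 l
  have g1 : N * X ≤ 6 * X + (2 + C) * (N * (Δ * u)) + C * (N * ∑ l ∈ I, d l) := by
    have huv' : (v : ℤ) ≤ u := by exact_mod_cast huv
    have h1 : (Δ : ℤ) * (u + v) ≤ 2 * (Δ * u) := by nlinarith
    have h2 := mul_le_mul_of_nonneg_left f1 (by positivity : (0 : ℤ) ≤ N)
    have h3 := mul_le_mul_of_nonneg_left h1 (by positivity : (0 : ℤ) ≤ N)
    have h4 : (N : ℤ) * C * (Δ * u + ∑ l ∈ I, d l) = C * (N * (Δ * u)) + C * (N * ∑ l ∈ I, d l) := by ring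
    rw [h4] at f4
    have h5 : (N : ℤ) * (∑ l ∈ I, d l + Δ * ((u : ℤ) + v) + ∑ l ∈ T1, x l + ∑ l ∈ T2, d (l + p - Δ)) =
        N * ∑ l ∈ I, d l + N * (Δ * ((u : ℤ) + v)) + N * ∑ l ∈ T1, x l + N * ∑ l ∈ T2, d (l + p - Δ) := by ring
    rw [h5] at h2
    have h6 : (2 + C : ℤ) * (N * (Δ * u)) = N * (2 * (Δ * u)) + C * (N * (Δ * u)) := by ring
    rw [h6]
    linarith
  have g2 : N * X ≤ (6 + 3 * C) * X + (2 + C) * (N * (Δ * u)) := by
    have h1 : (N : ℤ) * ∑ l ∈ I, d l ≤ 3 * X := by linarith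
    have h2 := mul_le_mul_of_nonneg_left h1 (by positivity : (0 : ℤ) ≤ C)
    linarith
  have g3 : (m : ℤ) * (N * X) ≤ (6 + 3 * C) * (m * X) + (4 + 2 * C) * (N * X) := by
    have h1 := mul_le_mul_of_nonneg_left g2 (by positivity : (0 : ℤ) ≤ m)
    have h2 := mul_le_mul_of_nonneg_left f6 (by positivity : (0 : ℤ) ≤ (2 + C) * N)
    linarith
  have hN' : (13 : ℤ) + 6 * C ≤ N := by exact_mod_cast hN
  have hm' : (4 : ℤ) * (4 + 2 * C) ≤ m := by exact_mod_cast hm
  have hmX : (0 : ℤ) ≤ m * X := by positivity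
  have hNX : (0 : ℤ) ≤ N * X := by positivity
  have g4 : 2 * ((6 + 3 * C : ℤ) * (m * X)) ≤ N * (m * X) - m * X := by
    have := mul_le_mul_of_nonneg_right hN' hmX
    linarith
  have g5 : 4 * ((4 + 2 * C : ℤ) * (N * X)) ≤ m * (N * X) := by
    have := mul_le_mul_of_nonneg_right hm' hNX
    linarith
  have hC0 : (0 : ℤ) ≤ C := by positivity
  have hm1 : (1 : ℤ) ≤ m := by linarith
  have hmX1 : (1 : ℤ) ≤ m * X := by nlinarith
  have g6 : (N : ℤ) * (m * X) = m * (N * X) := by ring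
  have hY : (0 : ℤ) ≤ m * (N * X) := by positivity
  rw [g6] at g4
  generalize (m : ℤ) * (N * X) = Y at *
  generalize (6 + 3 * C : ℤ) * (m * X) = a at *
  generalize (4 + 2 * C : ℤ) * (N * X) = b at *
  linarith

end Pool.Agent.Lib.MP_83608f_co.AV.SH.S5S_
end

section
/-! MP_83608f_co, part AV/SH, module SUM5 (helper16): section 5, the sum over a period. -/
set_option autoImplicit false

open Classical Finset

noncomputable section

namespace Pool.Agent.Lib.MP_83608f_co.AV.SH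

theorem specSUM5 (hB : SpecBAS) : SpecSUM5 := by
  intro X C hS D hD hDp hall
  obtain ⟨-, -, hpd, hdper, hXper, -, -, hsum, -, -, -, -, -, -, -, hnu, -, -⟩ := hB X C
  have hmex : ∀ l : ℤ, ∃ miss x : ℕ, (∃ miss x, Type1 C D l miss x) → Type1 C D l miss x := by
    intro l
    by_cases h : ∃ miss x, Type1 C D l miss x
    · obtain ⟨miss, x, h⟩ := h
      exact ⟨miss, x, fun _ => h⟩
    · exact ⟨0, 0, fun h' => absurd h' h⟩
  choose miss x hT using hmex
  have hbig := C.big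
  have hH := C.hH
  have hvu := C.hvu
  have hv := C.hv
  have hT2 : ∀ l : ℤ, ¬ (∃ miss x, Type1 C D l miss x) → Type2 C D l := fun l h => (hall l).resolve_left h
  refine S5S_.final (p := C.p) (q := C.q) (Δ := D) (m := C.m) (n := C.n) (u := C.u) (v := C.v) (N := 10000) (C := 400)
    (d := fun l => C.d l) (P := fun l => C.XX l) (miss := fun l => miss l)
    (rho := fun l => ((C.win (l + 2 * C.p - D) (l + 2 * C.p)).card : ℤ)) (x := fun l => x l)
    (T := fun l => ∃ miss x, Type1 C D l miss x) C.hq (by omega) C.hvu hD C.hn hnu (fun l => by rw [hdper])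
    (fun l => by rw [hXper]) (fun l => Int.natCast_nonneg _) (fun l => Int.natCast_nonneg _) ?_ ?_ ?_ ?_ ?_ ?_ ?_ ?_ ?_ ?_
    (by norm_num) (by omega)
  · have h := hsum 0 C.p
    have h2 : ∑ l ∈ Ico (0 : ℤ) C.q, ((C.win (l + 0) (l + 0 + C.p)).card : ℤ) = C.p * C.n := by exact_mod_cast h
    rw [← h2]
    refine sum_congr rfl fun l _ => ?_
    rw [add_zero]
    rfl
  · have h := hsum (2 * C.p - D) D
    have h2 : ∑ l ∈ Ico (0 : ℤ) C.q, ((C.win (l + (2 * C.p - D)) (l + (2 * C.p - D) + D)).card : ℤ) = D * C.n := by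
      exact_mod_cast h
    rw [← h2]
    refine sum_congr rfl fun l _ => ?_
    rw [show l + (2 * (C.p : ℤ) - D) + D = l + 2 * C.p by ring, show l + (2 * (C.p : ℤ) - D) = l + 2 * C.p - D by ring]
  · intro l
    have := hpd l
    push_cast
    omega
  · intro l
    have := hS.2.1 l
    push_cast
    omega
  · intro l hl
    have := (hT l hl).1
    exact_mod_cast this
  · intro l hl
    have := (hT l hl).2.1
    linarith
  · intro l hl
    have := (hT l hl).2.2.1
    have h2 : (20000 : ℤ) * C.d (l + 2 * C.p - D) ≤ miss l + (C.win (l + 2 * C.p - D) (l + 2 * C.p)).card := by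
      exact_mod_cast this
    push_cast
    have h3 : (0 : ℤ) ≤ C.d (l + 2 * C.p - D) := Int.natCast_nonneg _
    linarith
  · intro l hl
    have := (hT l hl).2.2.2
    have h2 : ((C.XX (l + 2 * C.p - D) - C.u : ℕ) : ℤ) = max 0 ((C.XX (l + 2 * C.p - D) : ℤ) - C.u) := by omega
    rw [← h2]
    have h3 : ((10000 * x l : ℕ) : ℤ) ≤ ((miss l + (C.win (l + 2 * C.p - D) (l + 2 * C.p)).card +
      4000000 * (C.XX (l + 2 * C.p - D) - C.u) : ℕ) : ℤ) := by exact_mod_cast this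
    push_cast at h3 ⊢
    linarith
  · intro l hl
    have := (hT2 l hl).2.2
    linarith
  · have h1 : ∀ l : ℤ, ¬ (∃ miss x, Type1 C D l miss x) → (C.u : ℤ) ≤ 2 * (C.win l (l + D)).card := fun l hl => by
      exact_mod_cast (hT2 l hl).2.1
    have h := hsum 0 D
    have h2 : ∑ l ∈ Ico (0 : ℤ) C.q, ((C.win (l + 0) (l + 0 + D)).card : ℤ) = D * C.n := by exact_mod_cast h
    rw [← h2, mul_sum, mul_comm, ← nsmul_eq_mul, ← sum_const]
    refine (sum_le_sum fun l hl => h1 l (mem_filter.1 hl).2).trans ?_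
    refine (sum_le_sum_of_subset_of_nonneg (filter_subset _ _) fun l _ _ => by positivity).trans ?_
    refine sum_le_sum fun l _ => ?_
    rw [add_zero]

end Pool.Agent.Lib.MP_83608f_co.AV.SH
end
end

section
/-!
# MP_83608f_co, part AV, SHORT route, module WIN (helper92): all windows are small
-/
set_option autoImplicit false

open Classical Finset

noncomputable section

namespace Pool.Agent.Lib.MP_83608f_co.AV.SH

open Pool.Agent.Lib.MP_83608f_co.CN (NoCl)
open Pool.Agent.Lib.MP_83608f_co.EM (Wk)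

namespace WIN_

variable {X : Type} {C : Cv X}

lemma rw_end {Q : X → Prop} {j : ℕ} {x y : X} (hx : Q x) (h : C.Rw Q j x y) : Q y := by
  cases j with
  | zero =>
    have : x = y := h
    rw [← this]
    exact hx
  | succ j =>
    obtain ⟨z, -, -, h3⟩ := h
    exact h3

/-- windows of length `M p` -/
lemma win_sum (hB : SpecBAS) (l : ℤ) (k : ℕ) :
    (C.win l (l + k * C.p)).card = ∑ i ∈ range k, C.XX (l + i * C.p) := by
  obtain ⟨-, -, -, -, -, -, b7, -⟩ := hB X C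
  induction k with
  | zero =>
    rw [sum_range_zero, card_eq_zero, eq_empty_iff_forall_notMem]
    intro x hx
    rw [C.memwin] at hx
    push_cast at hx
    linarith [hx.1, hx.2]
  | succ k ih =>
    rw [sum_range_succ, ← ih]
    have hp : (0 : ℤ) ≤ k * C.p := by positivity
    have hp' : (0 : ℤ) ≤ C.p := by positivity
    have h := b7 l (l + k * C.p) (l + (k + 1 : ℕ) * C.p) (by linarith) (by push_cast; linarith)
    rw [h]
    unfold Cv.XX
    rw [show l + ((k + 1 : ℕ) : ℤ) * C.p = l + k * C.p + C.p by push_cast; ring]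

/-- a window of length at most `q` -/
lemma win_le (l l' : ℤ) (h : l' ≤ l + C.q) : (C.win l l').card ≤ C.n := by
  rw [← C.full l]
  refine card_le_card fun x hx => ?_
  rw [C.memwin] at hx ⊢
  exact ⟨hx.1, hx.2.trans h⟩

/-- **growth**: `(h - 45) d ≤ W` -/
lemma step (hB : SpecBAS) (l : ℤ) :
    (C.m / 8 - 2) * C.d l ≤ (C.win (l - (C.H + 4) * C.p) l).card + 45 * C.d l := by
  obtain ⟨-, -, -, -, -, -, -, -, -, -, -, b12, -, -, -, -, -, b17⟩ := hB X C
  obtain ⟨x, hx⟩ := C.occ l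
  refine b17 l x _ _ hx.le (by omega) ?_
  intro i hi y hy
  rw [C.memwin]
  have h1 := rw_end (Q := fun y => C.lab y ≤ l) (show C.lab x ≤ l from hx.le) hy
  have h2 := C.drop i x y (b12 _ _ _ _ hy) (by omega)
  have hp : (0 : ℤ) < C.p := by exact_mod_cast C.hp
  refine ⟨?_, h1⟩
  have h3 : ((C.H : ℤ) + 4) * C.p = C.H * C.p + 4 * C.p := by ring
  rw [hx] at h2
  linarith

lemma bnd (hB : SpecBAS) (l : ℤ) : (C.win (l - (C.H + 4) * C.p) l).card ≤ 15 * (C.H * C.u) := by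
  have hB' := hB X C
  obtain ⟨-, -, b3, -, -, -, b7, -, -, -, -, -, b13, -, -, -, -, -⟩ := hB'
  obtain ⟨M, hM⟩ : ∃ M : ℕ, M = C.m - 2 * C.H - 4 := ⟨_, rfl⟩
  have hbig := C.big
  have hH := C.hH
  have hp : (0 : ℤ) < C.p := by exact_mod_cast C.hp
  have hMm : M + 2 * C.H + 4 = C.m := by omega
  -- `M p + (H + 4) p ≤ q`
  have hMq : (M : ℤ) * C.p + (C.H + 4) * C.p ≤ C.q := by
    have h1 : (C.p : ℤ) * C.m ≤ C.q + C.p * C.H := by exact_mod_cast C.speed
    have h2 : (C.m : ℤ) = M + 2 * C.H + 4 := by exact_mod_cast hMm.symm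
    rw [h2] at h1
    linarith [show (C.p : ℤ) * (M + 2 * C.H + 4) = M * C.p + (C.H + 4) * C.p + C.p * C.H by ring]
  obtain ⟨W, hW⟩ : ∃ W : ℤ → ℕ, ∀ l, W l = (C.win (l - (C.H + 4) * C.p) l).card := ⟨_, fun _ => rfl⟩
  rw [← hW]
  obtain ⟨h, hh⟩ : ∃ h : ℕ, h = C.m / 8 - 2 := ⟨_, rfl⟩
  have hstep : ∀ l, h * C.d l ≤ W l + 45 * C.d l := by
    intro l
    rw [hW, hh]
    exact step hB l
  -- the lap
  have h1 : W l + ∑ i ∈ range M, C.XX (l + i * C.p) ≤ C.n := by
    rw [← win_sum hB l M, hW]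
    have h2 := b7 (l - (C.H + 4) * C.p) l (l + M * C.p)
      (by linarith [show (0 : ℤ) ≤ (C.H + 4) * C.p by positivity])
      (by linarith [show (0 : ℤ) ≤ M * C.p by positivity])
    rw [← h2]
    exact win_le _ _ (by linarith)
  -- sum of the windows
  have h2 : ∀ l, W l = ∑ k ∈ range (C.H + 4), C.XX (l - (C.H + 4) * C.p + k * C.p) := by
    intro l
    rw [← win_sum hB, hW]
    congr 2
    push_cast
    ring
  have h3 : ∑ i ∈ range M, W (l + i * C.p) ≤ (C.H + 4) * C.n := by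
    calc ∑ i ∈ range M, W (l + i * C.p)
        = ∑ i ∈ range M, ∑ k ∈ range (C.H + 4), C.XX (l + i * C.p - (C.H + 4) * C.p + k * C.p) :=
          sum_congr rfl fun i _ => h2 _
      _ = ∑ k ∈ range (C.H + 4), ∑ i ∈ range M, C.XX (l + i * C.p - (C.H + 4) * C.p + k * C.p) := sum_comm
      _ ≤ ∑ k ∈ range (C.H + 4), C.n := by
          refine sum_le_sum fun k _ => ?_
          have h4 : ∑ i ∈ range M, C.XX (l + i * C.p - (C.H + 4) * C.p + k * C.p) =
              ∑ i ∈ range M, C.XX ((l - (C.H + 4) * C.p + k * C.p) + i * C.p) :=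
            sum_congr rfl fun i _ => by congr 1; ring
          rw [h4, ← win_sum hB]
          exact win_le _ _ (by linarith [show (0 : ℤ) ≤ (C.H + 4) * C.p by positivity])
      _ = (C.H + 4) * C.n := by rw [sum_const, card_range, smul_eq_mul]
  -- sum of the `d`
  obtain ⟨D, hD⟩ : ∃ D : ℕ, D = ∑ i ∈ range M, C.d (l + i * C.p) := ⟨_, rfl⟩
  have h4 : h * D ≤ (C.H + 4) * C.n + 45 * D := by
    rw [hD, mul_sum, mul_sum]
    calc ∑ i ∈ range M, h * C.d (l + i * C.p) ≤ ∑ i ∈ range M, (W (l + i * C.p) + 45 * C.d (l + i * C.p)) :=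
          sum_le_sum fun i _ => hstep _
      _ = ∑ i ∈ range M, W (l + i * C.p) + ∑ i ∈ range M, 45 * C.d (l + i * C.p) := sum_add_distrib
      _ ≤ _ := Nat.add_le_add_right h3 _
  have h5 : M * C.u ≤ ∑ i ∈ range M, C.XX (l + i * C.p) + D := by
    rw [hD, ← sum_add_distrib]
    calc M * C.u = ∑ i ∈ range M, C.u := by rw [sum_const, card_range, smul_eq_mul]
      _ ≤ _ := sum_le_sum fun i _ => b3 _
  have h6 : W l + M * C.u ≤ C.n + D := by omega
  -- `n ≤ m u`
  have h7 : W l + M * C.u ≤ C.m * C.u + D := by omega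
  have h8 : W l ≤ (2 * C.H + 4) * C.u + D := by
    have : C.m * C.u = M * C.u + (2 * C.H + 4) * C.u := by rw [← hMm]; ring
    omega
  -- `D ≤ 9 (H + 4) u`
  have h9 : 9 * (h - 45) ≥ C.m := by omega
  have h10 : (h - 45) * D ≤ (C.H + 4) * C.n := by
    rw [Nat.sub_mul]
    omega
  have h11 : (h - 45) * D ≤ (h - 45) * (9 * ((C.H + 4) * C.u)) := by
    calc (h - 45) * D ≤ (C.H + 4) * C.n := h10
      _ ≤ (C.H + 4) * (C.m * C.u) := Nat.mul_le_mul_left _ b13
      _ ≤ (C.H + 4) * ((9 * (h - 45)) * C.u) := Nat.mul_le_mul_left _ (Nat.mul_le_mul_right _ h9)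
      _ = _ := by ring
  have h12 : D ≤ 9 * ((C.H + 4) * C.u) := Nat.le_of_mul_le_mul_left h11 (by omega)
  have h13 : (2 * C.H + 4) * C.u + 9 * ((C.H + 4) * C.u) ≤ 15 * (C.H * C.u) := by
    have h14 : (2 * C.H + 4) * C.u + 9 * ((C.H + 4) * C.u) = 11 * (C.H * C.u) + 40 * C.u := by ring
    have h15 : 10 * C.u ≤ C.H * C.u := Nat.mul_le_mul_right _ hH
    omega
  omega

lemma nocl_rev (C : Cv X) : NoCl (fun x y => C.A y x) C.m := by
  have key : ∀ (j : ℕ) (x y : X), Wk (⟨fun x y => C.A y x⟩ : Digraph X) j x y → Wk (⟨C.A⟩ : Digraph X) j y x := by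
    intro j
    induction j with
    | zero => intro x y h; exact h.symm
    | succ j ih =>
      intro x y h
      obtain ⟨z, h1, h2⟩ := h
      exact (ih z y h2).snoc h1
  exact fun j h1 h2 x h3 => C.cl j h1 h2 x (key j x x h3)

/-- the dual: in-neighbours above `l` -/
lemma dual (l : ℤ) :
    (C.m / 8 - 2) * (C.v - C.XX (l - C.p)) ≤ (C.win l (l + (C.H + 1) * C.p)).card + 45 * (C.v - C.XX (l - C.p)) := by
  have hp : (1 : ℤ) ≤ C.p := by exact_mod_cast C.hp
  obtain ⟨z, hz⟩ := C.occ (l + 1)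
  have hQ : ∀ i ≤ C.m / 8 - 2, ∀ y, (∃ j ≤ i, Wk (⟨C.A⟩ : Digraph X) j y z) → l < C.lab y →
      y ∈ C.win l (l + (C.H + 1) * C.p) := by
    intro i hi y ⟨j, hj, hw⟩ hy
    rw [C.memwin]
    have h1 := C.drop j y z hw (by omega)
    rw [hz] at h1
    exact ⟨hy, by linarith [show ((C.H : ℤ) + 1) * C.p = C.H * C.p + C.p by ring]⟩
  refine GRW_.growth (nocl_rev C) (C.win l (l + (C.H + 1) * C.p)) z
    (hQ 0 (Nat.zero_le _) z ⟨0, le_rfl, rfl⟩ (by rw [hz]; linarith)) (C.m / 8 - 2) (by omega)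
    (fun i y => (∃ j ≤ i, Wk (⟨C.A⟩ : Digraph X) j y z) ∧ l < C.lab y) ⟨⟨0, le_rfl, rfl⟩, by rw [hz]; linarith⟩ ?_ ?_ _ ?_
  · intro i hi y hyQ hy
    obtain ⟨⟨j, hj, hw⟩, hl⟩ := hy
    have h1 : C.M y ⊆ ((C.win l (l + (C.H + 1) * C.p)).filter fun w => C.A w y) ∪ C.win (l - C.p) (l - C.p + C.p) := by
      intro w hw'
      rw [C.memM] at hw'
      rw [mem_union, mem_filter]
      by_cases h2 : l < C.lab w
      · exact Or.inl ⟨hQ (i + 1) (by omega) w ⟨j + 1, by omega, ⟨y, hw', hw⟩⟩ h2, hw'⟩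
      · refine Or.inr ?_
        rw [C.memwin]
        have := C.up w y hw'
        exact ⟨by linarith, by linarith⟩
    have h2 := (C.inn y).trans ((card_le_card h1).trans (card_union_le _ _))
    unfold Cv.XX
    omega
  · intro i hi y hyQ hy w hwQ hwy
    obtain ⟨⟨j, hj, hw⟩, hl⟩ := hy
    exact ⟨⟨j + 1, by omega, ⟨y, hwy, hw⟩⟩, ((C.memwin _ _ _).1 hwQ).1⟩
  · intro i hi y hyQ _
    exact hyQ

end WIN_

open WIN_

theorem specWIN (hB : SpecBAS) : SpecWIN := by
  intro X C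
  have hbig := C.big
  have hH := C.hH
  obtain ⟨k, hk⟩ : ∃ k : ℕ, k = C.m / 8 - 2 - 45 := ⟨_, rfl⟩
  -- from `(h - 45) r ≤ 15 H u` to `10^5 r ≤ u`
  have key : ∀ r : ℕ, (C.m / 8 - 2) * r ≤ 15 * (C.H * C.u) + 45 * r → 100000 * r ≤ C.u := by
    intro r hr
    have h1 : k * r ≤ 15 * (C.H * C.u) := by
      rw [hk, Nat.sub_mul]
      omega
    have h2 : 1500000 * C.H ≤ k := by omega
    have h3 : 1500000 * C.H * r ≤ 15 * (C.H * C.u) := (Nat.mul_le_mul_right _ h2).trans h1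
    have h4 : (15 * C.H) * (100000 * r) ≤ (15 * C.H) * C.u := by
      calc (15 * C.H) * (100000 * r) = 1500000 * C.H * r := by ring
        _ ≤ 15 * (C.H * C.u) := h3
        _ = (15 * C.H) * C.u := by ring
    exact Nat.le_of_mul_le_mul_left h4 (by omega)
  refine ⟨fun l => ?_, fun l => ?_, fun l => ?_⟩
  · have h1 := bnd (C := C) hB l
    calc 1000000 * (C.win (l - (C.H + 4) * C.p) l).card ≤ 1000000 * (15 * (C.H * C.u)) := Nat.mul_le_mul_left _ h1
      _ = (15000000 * C.H) * C.u := by ring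
      _ ≤ C.m * C.u := Nat.mul_le_mul_right _ (by omega)
  · have h1 := bnd (C := C) hB l
    have h2 := step (C := C) hB l
    exact key _ (by omega)
  · have h1 := dual (C := C) (l + C.p)
    rw [add_sub_cancel_right] at h1
    have h2 : (C.win (l + C.p) (l + C.p + (C.H + 1) * C.p)).card ≤
        (C.win (l + C.p + (C.H + 1) * C.p - (C.H + 4) * C.p) (l + C.p + (C.H + 1) * C.p)).card := by
      refine card_le_card fun x hx => ?_
      rw [C.memwin] at hx ⊢
      have hp : (0 : ℤ) < C.p := by exact_mod_cast C.hp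
      exact ⟨by linarith [show ((C.H : ℤ) + 4) * C.p = (C.H + 1) * C.p + 3 * C.p by ring, hx.1], hx.2⟩
    have h3 := bnd (C := C) hB (l + C.p + (C.H + 1) * C.p)
    have h4 := key (C.v - C.XX l) (by omega)
    omega

end Pool.Agent.Lib.MP_83608f_co.AV.SH
end
end
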